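import Pool.Agent.E4803a.Cum

set_option autoImplicit false

namespace Pool.Agent.E4803a

/-- the indicator that the sum over `s` vanishes -/
def z (v : Fin 6 → ℤ) (s : Finset (Fin 6)) : ℤ := Z (∑ i ∈ s, v i)

def K24 (v : Fin 6 → ℤ) : ℤ :=
    z v {0, 1} * z v {2, 3, 4, 5} + z v {0, 2} * z v {1, 3, 4, 5} +
    z v {0, 3} * z v {1, 2, 4, 5} + z v {0, 4} * z v {1, 2, 3, 5} +
    z v {0, 5} * z v {1, 2, 3, 4} + z v {1, 2} * z v {0, 3, 4, 5} +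
    z v {1, 3} * z v {0, 2, 4, 5} + z v {1, 4} * z v {0, 2, 3, 5} +
    z v {1, 5} * z v {0, 2, 3, 4} + z v {2, 3} * z v {0, 1, 4, 5} +
    z v {2, 4} * z v {0, 1, 3, 5} + z v {2, 5} * z v {0, 1, 3, 4} +
    z v {3, 4} * z v {0, 1, 2, 5} + z v {3, 5} * z v {0, 1, 2, 4} + z v {4, 5} * z v {0, 1, 2, 3}

def K33 (v : Fin 6 → ℤ) : ℤ :=
    z v {0, 1, 2} * z v {3, 4, 5} + z v {0, 1, 3} * z v {2, 4, 5} +
    z v {0, 1, 4} * z v {2, 3, 5} + z v {0, 1, 5} * z v {2, 3, 4} +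
    z v {0, 2, 3} * z v {1, 4, 5} + z v {0, 2, 4} * z v {1, 3, 5} +
    z v {0, 2, 5} * z v {1, 3, 4} + z v {0, 3, 4} * z v {1, 2, 5} +
    z v {0, 3, 5} * z v {1, 2, 4} + z v {0, 4, 5} * z v {1, 2, 3}

def K222 (v : Fin 6 → ℤ) : ℤ :=
    z v {0, 1} * z v {2, 3} * z v {4, 5} + z v {0, 1} * z v {2, 4} * z v {3, 5} +
    z v {0, 1} * z v {2, 5} * z v {3, 4} + z v {0, 2} * z v {1, 3} * z v {4, 5} +
    z v {0, 2} * z v {1, 4} * z v {3, 5} + z v {0, 2} * z v {1, 5} * z v {3, 4} +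
    z v {0, 3} * z v {1, 2} * z v {4, 5} + z v {0, 3} * z v {1, 4} * z v {2, 5} +
    z v {0, 3} * z v {1, 5} * z v {2, 4} + z v {0, 4} * z v {1, 2} * z v {3, 5} +
    z v {0, 4} * z v {1, 3} * z v {2, 5} + z v {0, 4} * z v {1, 5} * z v {2, 3} +
    z v {0, 5} * z v {1, 2} * z v {3, 4} + z v {0, 5} * z v {1, 3} * z v {2, 4} +
    z v {0, 5} * z v {1, 4} * z v {2, 3}

/-- the sixth order combinatorial cumulant kernel -/
def K (v : Fin 6 → ℤ) : ℤ := z v Finset.univ - K24 v - K33 v + 2 * K222 v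

/-- explicit form -/
def Kx (a b c d e f : ℤ) : ℤ := Z (a + (b + (c + (d + (e + f))))) - (
    Z (a + b) * Z (c + (d + (e + f))) + Z (a + c) * Z (b + (d + (e + f))) +
    Z (a + d) * Z (b + (c + (e + f))) + Z (a + e) * Z (b + (c + (d + f))) +
    Z (a + f) * Z (b + (c + (d + e))) + Z (b + c) * Z (a + (d + (e + f))) +
    Z (b + d) * Z (a + (c + (e + f))) + Z (b + e) * Z (a + (c + (d + f))) +
    Z (b + f) * Z (a + (c + (d + e))) + Z (c + d) * Z (a + (b + (e + f))) +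
    Z (c + e) * Z (a + (b + (d + f))) + Z (c + f) * Z (a + (b + (d + e))) +
    Z (d + e) * Z (a + (b + (c + f))) + Z (d + f) * Z (a + (b + (c + e))) +
    Z (e + f) * Z (a + (b + (c + d)))) - (
    Z (a + (b + c)) * Z (d + (e + f)) + Z (a + (b + d)) * Z (c + (e + f)) +
    Z (a + (b + e)) * Z (c + (d + f)) + Z (a + (b + f)) * Z (c + (d + e)) +
    Z (a + (c + d)) * Z (b + (e + f)) + Z (a + (c + e)) * Z (b + (d + f)) +
    Z (a + (c + f)) * Z (b + (d + e)) + Z (a + (d + e)) * Z (b + (c + f)) +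
    Z (a + (d + f)) * Z (b + (c + e)) + Z (a + (e + f)) * Z (b + (c + d))) + 2 * (
    Z (a + b) * Z (c + d) * Z (e + f) + Z (a + b) * Z (c + e) * Z (d + f) +
    Z (a + b) * Z (c + f) * Z (d + e) + Z (a + c) * Z (b + d) * Z (e + f) +
    Z (a + c) * Z (b + e) * Z (d + f) + Z (a + c) * Z (b + f) * Z (d + e) +
    Z (a + d) * Z (b + c) * Z (e + f) + Z (a + d) * Z (b + e) * Z (c + f) +
    Z (a + d) * Z (b + f) * Z (c + e) + Z (a + e) * Z (b + c) * Z (d + f) +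
    Z (a + e) * Z (b + d) * Z (c + f) + Z (a + e) * Z (b + f) * Z (c + d) +
    Z (a + f) * Z (b + c) * Z (d + e) + Z (a + f) * Z (b + d) * Z (c + e) +
    Z (a + f) * Z (b + e) * Z (c + d))

lemma K_eq (v : Fin 6 → ℤ) : K v = Kx (v 0) (v 1) (v 2) (v 3) (v 4) (v 5) := by
  simp [K, K24, K33, K222, Kx, z, Fin.sum_univ_six, add_assoc]

lemma Kx_swap01 (a b c d e f : ℤ) : Kx b a c d e f = Kx a b c d e f := by
  unfold Kx; ring_nf

lemma Kx_swap12 (a b c d e f : ℤ) : Kx a c b d e f = Kx a b c d e f := by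
  unfold Kx; ring_nf

lemma Kx_swap23 (a b c d e f : ℤ) : Kx a b d c e f = Kx a b c d e f := by
  unfold Kx; ring_nf

lemma Kx_swap34 (a b c d e f : ℤ) : Kx a b c e d f = Kx a b c d e f := by
  unfold Kx; ring_nf

lemma Kx_swap45 (a b c d e f : ℤ) : Kx a b c d f e = Kx a b c d e f := by
  unfold Kx; ring_nf

lemma K_perm (p : Equiv.Perm (Fin 6)) : ∀ v : Fin 6 → ℤ, K (v ∘ p) = K v := by
  have hp : p ∈ Submonoid.closure
      (Set.range fun i : Fin 5 => Equiv.swap i.castSucc i.succ) := by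
    rw [Equiv.Perm.mclosure_swap_castSucc_succ]
    trivial
  induction hp using Submonoid.closure_induction with
  | mem x hx =>
    obtain ⟨i, rfl⟩ := hx
    intro v
    rw [K_eq, K_eq]
    fin_cases i
    · exact Kx_swap01 _ _ _ _ _ _
    · exact Kx_swap12 _ _ _ _ _ _
    · exact Kx_swap23 _ _ _ _ _ _
    · exact Kx_swap34 _ _ _ _ _ _
    · exact Kx_swap45 _ _ _ _ _ _
  | one => intro v; rfl
  | mul x y _ _ hx hy =>
    intro v
    have : v ∘ (x * y : Equiv.Perm (Fin 6)) = (v ∘ x) ∘ y := rfl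
    rw [this, hy, hx]

lemma z_nonneg (v : Fin 6 → ℤ) (s : Finset (Fin 6)) : 0 ≤ z v s := by
  unfold z Z
  split_ifs <;> norm_num

lemma z_le_one (v : Fin 6 → ℤ) (s : Finset (Fin 6)) : z v s ≤ 1 := by
  unfold z Z
  split_ifs <;> norm_num

lemma z_zero {v : Fin 6 → ℤ} {s : Finset (Fin 6)} (h : ∑ i ∈ s, v i ≠ 0) : z v s = 0 := by
  unfold z Z
  rw [if_neg h]

lemma z_one {v : Fin 6 → ℤ} {s : Finset (Fin 6)} (h : ∑ i ∈ s, v i = 0) : z v s = 1 := by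
  unfold z Z
  rw [if_pos h]

lemma zz_nonneg (v : Fin 6 → ℤ) (s t : Finset (Fin 6)) : 0 ≤ z v s * z v t :=
  mul_nonneg (z_nonneg v s) (z_nonneg v t)

lemma zz_le_one (v : Fin 6 → ℤ) (s t : Finset (Fin 6)) : z v s * z v t ≤ 1 :=
  mul_le_one₀ (z_le_one v s) (z_nonneg v t) (z_le_one v t)

lemma zzz_nonneg (v : Fin 6 → ℤ) (s t u : Finset (Fin 6)) : 0 ≤ z v s * z v t * z v u :=
  mul_nonneg (zz_nonneg v s t) (z_nonneg v u)

lemma z_union {v : Fin 6 → ℤ} {s t u : Finset (Fin 6)} (hu : s ∪ t = u) (hd : Disjoint s t)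
    (h : ∑ i ∈ s, v i = 0) : z v u = z v t := by
  subst hu
  simp [z, Finset.sum_union hd, h]

lemma K24_le (v : Fin 6 → ℤ) : K24 v ≤ 15 := by
  unfold K24
  linarith [
    zz_le_one v {0, 1} {2, 3, 4, 5}, zz_le_one v {0, 2} {1, 3, 4, 5},
    zz_le_one v {0, 3} {1, 2, 4, 5}, zz_le_one v {0, 4} {1, 2, 3, 5},
    zz_le_one v {0, 5} {1, 2, 3, 4}, zz_le_one v {1, 2} {0, 3, 4, 5},
    zz_le_one v {1, 3} {0, 2, 4, 5}, zz_le_one v {1, 4} {0, 2, 3, 5},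
    zz_le_one v {1, 5} {0, 2, 3, 4}, zz_le_one v {2, 3} {0, 1, 4, 5},
    zz_le_one v {2, 4} {0, 1, 3, 5}, zz_le_one v {2, 5} {0, 1, 3, 4},
    zz_le_one v {3, 4} {0, 1, 2, 5}, zz_le_one v {3, 5} {0, 1, 2, 4},
    zz_le_one v {4, 5} {0, 1, 2, 3}]

lemma K33_le (v : Fin 6 → ℤ) : K33 v ≤ 10 := by
  unfold K33
  linarith [
    zz_le_one v {0, 1, 2} {3, 4, 5}, zz_le_one v {0, 1, 3} {2, 4, 5},
    zz_le_one v {0, 1, 4} {2, 3, 5}, zz_le_one v {0, 1, 5} {2, 3, 4},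
    zz_le_one v {0, 2, 3} {1, 4, 5}, zz_le_one v {0, 2, 4} {1, 3, 5},
    zz_le_one v {0, 2, 5} {1, 3, 4}, zz_le_one v {0, 3, 4} {1, 2, 5},
    zz_le_one v {0, 3, 5} {1, 2, 4}, zz_le_one v {0, 4, 5} {1, 2, 3}]

lemma K222_nonneg (v : Fin 6 → ℤ) : 0 ≤ K222 v := by
  unfold K222
  linarith [
    zzz_nonneg v {0, 1} {2, 3} {4, 5}, zzz_nonneg v {0, 1} {2, 4} {3, 5},
    zzz_nonneg v {0, 1} {2, 5} {3, 4}, zzz_nonneg v {0, 2} {1, 3} {4, 5},
    zzz_nonneg v {0, 2} {1, 4} {3, 5}, zzz_nonneg v {0, 2} {1, 5} {3, 4},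
    zzz_nonneg v {0, 3} {1, 2} {4, 5}, zzz_nonneg v {0, 3} {1, 4} {2, 5},
    zzz_nonneg v {0, 3} {1, 5} {2, 4}, zzz_nonneg v {0, 4} {1, 2} {3, 5},
    zzz_nonneg v {0, 4} {1, 3} {2, 5}, zzz_nonneg v {0, 4} {1, 5} {2, 3},
    zzz_nonneg v {0, 5} {1, 2} {3, 4}, zzz_nonneg v {0, 5} {1, 3} {2, 4},
    zzz_nonneg v {0, 5} {1, 4} {2, 3}]

lemma K_lower (v : Fin 6 → ℤ) : -25 ≤ K v := by
  unfold K
  linarith [K24_le v, K33_le v, K222_nonneg v, z_nonneg v Finset.univ]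

lemma P1 {v : Fin 6 → ℤ} (x : Fin 6) (h : ∀ s : Finset (Fin 6), x ∈ s → ∑ i ∈ s, v i ≠ 0) :
    K v = 0 := by
  have hz : ∀ s : Finset (Fin 6), x ∈ s → z v s = 0 := fun s hs => z_zero (h s hs)
  fin_cases x <;> simp_all [K, K24, K33, K222]

lemma P2_01 {v : Fin 6 → ℤ} (hv : v 0 + v 1 = 0) (hne : ∀ i, v i ≠ 0)
    (h : ∀ s : Finset (Fin 6), ∑ i ∈ s, v i = 0 → (0 ∈ s ↔ 1 ∈ s)) : K v = 0 := by
  have hz1 : ∀ s : Finset (Fin 6), 0 ∈ s → 1 ∉ s → z v s = 0 := fun s h1 h2 =>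
    z_zero fun h3 => h2 ((h s h3).1 h1)
  have hz2 : ∀ s : Finset (Fin 6), 1 ∈ s → 0 ∉ s → z v s = 0 := fun s h1 h2 =>
    z_zero fun h3 => h2 ((h s h3).2 h1)
  have h0 : ∑ i ∈ ({0, 1} : Finset (Fin 6)), v i = 0 := by
    rw [Finset.sum_pair (by decide)]
    exact hv
  have hx : ∀ x : Fin 6, ∀ u : Finset (Fin 6), {0, 1} ∪ {x} = u →
      Disjoint ({0, 1} : Finset (Fin 6)) {x} → z v u = 0 := by
    intro x u h1 h2
    rw [z_union h1 h2 h0]
    refine z_zero ?_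
    rw [Finset.sum_singleton]
    exact hne x
  have q0 : z v {0, 1} = 1 := z_one h0
  have q1 : z v Finset.univ = z v {2, 3, 4, 5} := z_union (s := {0, 1}) (t := {2, 3, 4, 5}) (by decide) (by decide) h0
  have q2 : z v {0, 1, 2, 3} = z v {2, 3} := z_union (s := {0, 1}) (t := {2, 3}) (by decide) (by decide) h0
  have q3 : z v {0, 1, 2, 4} = z v {2, 4} := z_union (s := {0, 1}) (t := {2, 4}) (by decide) (by decide) h0
  have q4 : z v {0, 1, 2, 5} = z v {2, 5} := z_union (s := {0, 1}) (t := {2, 5}) (by decide) (by decide) h0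
  have q5 : z v {0, 1, 3, 4} = z v {3, 4} := z_union (s := {0, 1}) (t := {3, 4}) (by decide) (by decide) h0
  have q6 : z v {0, 1, 3, 5} = z v {3, 5} := z_union (s := {0, 1}) (t := {3, 5}) (by decide) (by decide) h0
  have q7 : z v {0, 1, 4, 5} = z v {4, 5} := z_union (s := {0, 1}) (t := {4, 5}) (by decide) (by decide) h0
  have q8 : z v {0, 1, 2} = 0 := hx 2 {0, 1, 2} (by decide) (by decide)
  have q9 : z v {0, 1, 3} = 0 := hx 3 {0, 1, 3} (by decide) (by decide)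
  have q10 : z v {0, 1, 4} = 0 := hx 4 {0, 1, 4} (by decide) (by decide)
  have q11 : z v {0, 1, 5} = 0 := hx 5 {0, 1, 5} (by decide) (by decide)
  simp [K, K24, K33, K222, hz1, hz2, q0, q1, q2, q3, q4, q5, q6, q7, q8, q9, q10, q11]
  try ring

lemma P2_34 {v : Fin 6 → ℤ} (hv : v 3 + v 4 = 0) (hne : ∀ i, v i ≠ 0)
    (h : ∀ s : Finset (Fin 6), ∑ i ∈ s, v i = 0 → (3 ∈ s ↔ 4 ∈ s)) : K v = 0 := by
  have hz1 : ∀ s : Finset (Fin 6), 3 ∈ s → 4 ∉ s → z v s = 0 := fun s h1 h2 =>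
    z_zero fun h3 => h2 ((h s h3).1 h1)
  have hz2 : ∀ s : Finset (Fin 6), 4 ∈ s → 3 ∉ s → z v s = 0 := fun s h1 h2 =>
    z_zero fun h3 => h2 ((h s h3).2 h1)
  have h0 : ∑ i ∈ ({3, 4} : Finset (Fin 6)), v i = 0 := by
    rw [Finset.sum_pair (by decide)]
    exact hv
  have hx : ∀ x : Fin 6, ∀ u : Finset (Fin 6), {3, 4} ∪ {x} = u →
      Disjoint ({3, 4} : Finset (Fin 6)) {x} → z v u = 0 := by
    intro x u h1 h2
    rw [z_union h1 h2 h0]
    refine z_zero ?_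
    rw [Finset.sum_singleton]
    exact hne x
  have q0 : z v {3, 4} = 1 := z_one h0
  have q1 : z v Finset.univ = z v {0, 1, 2, 5} := z_union (s := {3, 4}) (t := {0, 1, 2, 5}) (by decide) (by decide) h0
  have q2 : z v {0, 1, 3, 4} = z v {0, 1} := z_union (s := {3, 4}) (t := {0, 1}) (by decide) (by decide) h0
  have q3 : z v {0, 2, 3, 4} = z v {0, 2} := z_union (s := {3, 4}) (t := {0, 2}) (by decide) (by decide) h0
  have q4 : z v {0, 3, 4, 5} = z v {0, 5} := z_union (s := {3, 4}) (t := {0, 5}) (by decide) (by decide) h0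
  have q5 : z v {1, 2, 3, 4} = z v {1, 2} := z_union (s := {3, 4}) (t := {1, 2}) (by decide) (by decide) h0
  have q6 : z v {1, 3, 4, 5} = z v {1, 5} := z_union (s := {3, 4}) (t := {1, 5}) (by decide) (by decide) h0
  have q7 : z v {2, 3, 4, 5} = z v {2, 5} := z_union (s := {3, 4}) (t := {2, 5}) (by decide) (by decide) h0
  have q8 : z v {0, 3, 4} = 0 := hx 0 {0, 3, 4} (by decide) (by decide)
  have q9 : z v {1, 3, 4} = 0 := hx 1 {1, 3, 4} (by decide) (by decide)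
  have q10 : z v {2, 3, 4} = 0 := hx 2 {2, 3, 4} (by decide) (by decide)
  have q11 : z v {3, 4, 5} = 0 := hx 5 {3, 4, 5} (by decide) (by decide)
  simp [K, K24, K33, K222, hz1, hz2, q0, q1, q2, q3, q4, q5, q6, q7, q8, q9, q10, q11]
  try ring

lemma P2_45 {v : Fin 6 → ℤ} (hv : v 4 + v 5 = 0) (hne : ∀ i, v i ≠ 0)
    (h : ∀ s : Finset (Fin 6), ∑ i ∈ s, v i = 0 → (4 ∈ s ↔ 5 ∈ s)) : K v = 0 := by
  have hz1 : ∀ s : Finset (Fin 6), 4 ∈ s → 5 ∉ s → z v s = 0 := fun s h1 h2 =>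
    z_zero fun h3 => h2 ((h s h3).1 h1)
  have hz2 : ∀ s : Finset (Fin 6), 5 ∈ s → 4 ∉ s → z v s = 0 := fun s h1 h2 =>
    z_zero fun h3 => h2 ((h s h3).2 h1)
  have h0 : ∑ i ∈ ({4, 5} : Finset (Fin 6)), v i = 0 := by
    rw [Finset.sum_pair (by decide)]
    exact hv
  have hx : ∀ x : Fin 6, ∀ u : Finset (Fin 6), {4, 5} ∪ {x} = u →
      Disjoint ({4, 5} : Finset (Fin 6)) {x} → z v u = 0 := by
    intro x u h1 h2
    rw [z_union h1 h2 h0]
    refine z_zero ?_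
    rw [Finset.sum_singleton]
    exact hne x
  have q0 : z v {4, 5} = 1 := z_one h0
  have q1 : z v Finset.univ = z v {0, 1, 2, 3} := z_union (s := {4, 5}) (t := {0, 1, 2, 3}) (by decide) (by decide) h0
  have q2 : z v {0, 1, 4, 5} = z v {0, 1} := z_union (s := {4, 5}) (t := {0, 1}) (by decide) (by decide) h0
  have q3 : z v {0, 2, 4, 5} = z v {0, 2} := z_union (s := {4, 5}) (t := {0, 2}) (by decide) (by decide) h0
  have q4 : z v {0, 3, 4, 5} = z v {0, 3} := z_union (s := {4, 5}) (t := {0, 3}) (by decide) (by decide) h0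
  have q5 : z v {1, 2, 4, 5} = z v {1, 2} := z_union (s := {4, 5}) (t := {1, 2}) (by decide) (by decide) h0
  have q6 : z v {1, 3, 4, 5} = z v {1, 3} := z_union (s := {4, 5}) (t := {1, 3}) (by decide) (by decide) h0
  have q7 : z v {2, 3, 4, 5} = z v {2, 3} := z_union (s := {4, 5}) (t := {2, 3}) (by decide) (by decide) h0
  have q8 : z v {0, 4, 5} = 0 := hx 0 {0, 4, 5} (by decide) (by decide)
  have q9 : z v {1, 4, 5} = 0 := hx 1 {1, 4, 5} (by decide) (by decide)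
  have q10 : z v {2, 4, 5} = 0 := hx 2 {2, 4, 5} (by decide) (by decide)
  have q11 : z v {3, 4, 5} = 0 := hx 3 {3, 4, 5} (by decide) (by decide)
  simp [K, K24, K33, K222, hz1, hz2, q0, q1, q2, q3, q4, q5, q6, q7, q8, q9, q10, q11]
  try ring

lemma P3 {v : Fin 6 → ℤ}
    (hB : ∀ s : Finset (Fin 6), (s ∩ {0, 1, 2}).card = 1 → ∑ i ∈ s, v i ≠ 0)
    (hA : ∀ s : Finset (Fin 6), (s ∩ {3, 4, 5}).card = 1 → ∑ i ∈ s, v i ≠ 0) :
    K v = z v Finset.univ - z v {0, 1, 2} * z v {3, 4, 5} := by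
  have hz1 : ∀ s : Finset (Fin 6), (s ∩ {0, 1, 2}).card = 1 → z v s = 0 := fun s h1 =>
    z_zero (hB s h1)
  have hz2 : ∀ s : Finset (Fin 6), (s ∩ {3, 4, 5}).card = 1 → z v s = 0 := fun s h1 =>
    z_zero (hA s h1)
  simp only [K, K24, K33, K222,
    hz1 {2, 3, 4, 5} (by decide), hz1 {1, 3, 4, 5} (by decide), hz1 {0, 3} (by decide),
    hz1 {0, 4} (by decide), hz1 {0, 5} (by decide), hz1 {0, 3, 4, 5} (by decide),
    hz1 {1, 3} (by decide), hz1 {1, 4} (by decide), hz1 {1, 5} (by decide),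
    hz1 {2, 3} (by decide), hz1 {2, 4} (by decide), hz1 {2, 5} (by decide),
    hz2 {0, 1, 2, 5} (by decide), hz2 {0, 1, 2, 4} (by decide), hz2 {0, 1, 2, 3} (by decide),
    hz2 {0, 1, 3} (by decide), hz1 {2, 4, 5} (by decide), hz2 {0, 1, 4} (by decide),
    hz1 {2, 3, 5} (by decide), hz2 {0, 1, 5} (by decide), hz1 {2, 3, 4} (by decide),
    hz2 {0, 2, 3} (by decide), hz1 {1, 4, 5} (by decide), hz2 {0, 2, 4} (by decide),
    hz1 {1, 3, 5} (by decide), hz2 {0, 2, 5} (by decide), hz1 {1, 3, 4} (by decide),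
    hz1 {0, 3, 4} (by decide), hz2 {1, 2, 5} (by decide), hz1 {0, 3, 5} (by decide),
    hz2 {1, 2, 4} (by decide), hz1 {0, 4, 5} (by decide), hz2 {1, 2, 3} (by decide),
    mul_zero, zero_mul, add_zero, zero_add, sub_zero]

section sums

variable {I : Type} [Fintype I]

lemma z_comp (u : Fin 6 → ℤ) (f : Fin 6 → Fin 6) (hf : Function.Bijective f)
    (A : Finset (Fin 6)) : z (u ∘ f) A = z u (A.image f) := by
  unfold z
  rw [Finset.sum_image hf.1.injOn]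
  rfl

lemma sum_comp_bij (w : I → ℤ) (f : Fin 6 → Fin 6) (hf : Function.Bijective f)
    (F : (Fin 6 → ℤ) → ℤ) :
    ∑ σ : Fin 6 → I, F ((w ∘ σ) ∘ f) = ∑ σ : Fin 6 → I, F (w ∘ σ) := by
  have h := Equiv.sum_comp ((Equiv.ofBijective f hf).symm.arrowCongr (Equiv.refl I))
    (fun σ : Fin 6 → I => F (w ∘ σ))
  rw [← h]
  refine Finset.sum_congr rfl fun σ _ => ?_
  rfl

lemma reidx2 (w : I → ℤ) (f : Fin 6 → Fin 6) (hf : Function.Bijective f)
    {A B A' B' : Finset (Fin 6)} (hA : A.image f = A') (hB : B.image f = B') :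
    ∑ σ : Fin 6 → I, z (w ∘ σ) A' * z (w ∘ σ) B' =
      ∑ σ : Fin 6 → I, z (w ∘ σ) A * z (w ∘ σ) B := by
  rw [← sum_comp_bij w f hf (fun u => z u A * z u B)]
  subst hA hB
  simp only [z_comp _ f hf]

lemma reidx3 (w : I → ℤ) (f : Fin 6 → Fin 6) (hf : Function.Bijective f)
    {A B C A' B' C' : Finset (Fin 6)} (hA : A.image f = A') (hB : B.image f = B')
    (hC : C.image f = C') :
    ∑ σ : Fin 6 → I, z (w ∘ σ) A' * z (w ∘ σ) B' * z (w ∘ σ) C' =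
      ∑ σ : Fin 6 → I, z (w ∘ σ) A * z (w ∘ σ) B * z (w ∘ σ) C := by
  rw [← sum_comp_bij w f hf (fun u => z u A * z u B * z u C)]
  subst hA hB hC
  simp only [z_comp _ f hf]

lemma sum_K24 (w : I → ℤ) : ∑ σ : Fin 6 → I, K24 (w ∘ σ) =
    15 * ∑ σ : Fin 6 → I, z (w ∘ σ) {0, 1} * z (w ∘ σ) {2, 3, 4, 5} := by
  simp only [K24, Finset.sum_add_distrib]
  rw [reidx2 w ![0, 2, 1, 3, 4, 5] (by decide) (A := {0, 1}) (B := {2, 3, 4, 5}) (A' := {0, 2}) (B' := {1, 3, 4, 5}) (by decide) (by decide)]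
  rw [reidx2 w ![0, 3, 1, 2, 4, 5] (by decide) (A := {0, 1}) (B := {2, 3, 4, 5}) (A' := {0, 3}) (B' := {1, 2, 4, 5}) (by decide) (by decide)]
  rw [reidx2 w ![0, 4, 1, 2, 3, 5] (by decide) (A := {0, 1}) (B := {2, 3, 4, 5}) (A' := {0, 4}) (B' := {1, 2, 3, 5}) (by decide) (by decide)]
  rw [reidx2 w ![0, 5, 1, 2, 3, 4] (by decide) (A := {0, 1}) (B := {2, 3, 4, 5}) (A' := {0, 5}) (B' := {1, 2, 3, 4}) (by decide) (by decide)]
  rw [reidx2 w ![1, 2, 0, 3, 4, 5] (by decide) (A := {0, 1}) (B := {2, 3, 4, 5}) (A' := {1, 2}) (B' := {0, 3, 4, 5}) (by decide) (by decide)]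
  rw [reidx2 w ![1, 3, 0, 2, 4, 5] (by decide) (A := {0, 1}) (B := {2, 3, 4, 5}) (A' := {1, 3}) (B' := {0, 2, 4, 5}) (by decide) (by decide)]
  rw [reidx2 w ![1, 4, 0, 2, 3, 5] (by decide) (A := {0, 1}) (B := {2, 3, 4, 5}) (A' := {1, 4}) (B' := {0, 2, 3, 5}) (by decide) (by decide)]
  rw [reidx2 w ![1, 5, 0, 2, 3, 4] (by decide) (A := {0, 1}) (B := {2, 3, 4, 5}) (A' := {1, 5}) (B' := {0, 2, 3, 4}) (by decide) (by decide)]
  rw [reidx2 w ![2, 3, 0, 1, 4, 5] (by decide) (A := {0, 1}) (B := {2, 3, 4, 5}) (A' := {2, 3}) (B' := {0, 1, 4, 5}) (by decide) (by decide)]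
  rw [reidx2 w ![2, 4, 0, 1, 3, 5] (by decide) (A := {0, 1}) (B := {2, 3, 4, 5}) (A' := {2, 4}) (B' := {0, 1, 3, 5}) (by decide) (by decide)]
  rw [reidx2 w ![2, 5, 0, 1, 3, 4] (by decide) (A := {0, 1}) (B := {2, 3, 4, 5}) (A' := {2, 5}) (B' := {0, 1, 3, 4}) (by decide) (by decide)]
  rw [reidx2 w ![3, 4, 0, 1, 2, 5] (by decide) (A := {0, 1}) (B := {2, 3, 4, 5}) (A' := {3, 4}) (B' := {0, 1, 2, 5}) (by decide) (by decide)]
  rw [reidx2 w ![3, 5, 0, 1, 2, 4] (by decide) (A := {0, 1}) (B := {2, 3, 4, 5}) (A' := {3, 5}) (B' := {0, 1, 2, 4}) (by decide) (by decide)]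
  rw [reidx2 w ![4, 5, 0, 1, 2, 3] (by decide) (A := {0, 1}) (B := {2, 3, 4, 5}) (A' := {4, 5}) (B' := {0, 1, 2, 3}) (by decide) (by decide)]
  ring

lemma sum_K33 (w : I → ℤ) : ∑ σ : Fin 6 → I, K33 (w ∘ σ) =
    10 * ∑ σ : Fin 6 → I, z (w ∘ σ) {0, 1, 2} * z (w ∘ σ) {3, 4, 5} := by
  simp only [K33, Finset.sum_add_distrib]
  rw [reidx2 w ![0, 1, 3, 2, 4, 5] (by decide) (A := {0, 1, 2}) (B := {3, 4, 5}) (A' := {0, 1, 3}) (B' := {2, 4, 5}) (by decide) (by decide)]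
  rw [reidx2 w ![0, 1, 4, 2, 3, 5] (by decide) (A := {0, 1, 2}) (B := {3, 4, 5}) (A' := {0, 1, 4}) (B' := {2, 3, 5}) (by decide) (by decide)]
  rw [reidx2 w ![0, 1, 5, 2, 3, 4] (by decide) (A := {0, 1, 2}) (B := {3, 4, 5}) (A' := {0, 1, 5}) (B' := {2, 3, 4}) (by decide) (by decide)]
  rw [reidx2 w ![0, 2, 3, 1, 4, 5] (by decide) (A := {0, 1, 2}) (B := {3, 4, 5}) (A' := {0, 2, 3}) (B' := {1, 4, 5}) (by decide) (by decide)]
  rw [reidx2 w ![0, 2, 4, 1, 3, 5] (by decide) (A := {0, 1, 2}) (B := {3, 4, 5}) (A' := {0, 2, 4}) (B' := {1, 3, 5}) (by decide) (by decide)]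
  rw [reidx2 w ![0, 2, 5, 1, 3, 4] (by decide) (A := {0, 1, 2}) (B := {3, 4, 5}) (A' := {0, 2, 5}) (B' := {1, 3, 4}) (by decide) (by decide)]
  rw [reidx2 w ![0, 3, 4, 1, 2, 5] (by decide) (A := {0, 1, 2}) (B := {3, 4, 5}) (A' := {0, 3, 4}) (B' := {1, 2, 5}) (by decide) (by decide)]
  rw [reidx2 w ![0, 3, 5, 1, 2, 4] (by decide) (A := {0, 1, 2}) (B := {3, 4, 5}) (A' := {0, 3, 5}) (B' := {1, 2, 4}) (by decide) (by decide)]
  rw [reidx2 w ![0, 4, 5, 1, 2, 3] (by decide) (A := {0, 1, 2}) (B := {3, 4, 5}) (A' := {0, 4, 5}) (B' := {1, 2, 3}) (by decide) (by decide)]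
  ring

lemma sum_K222 (w : I → ℤ) : ∑ σ : Fin 6 → I, K222 (w ∘ σ) =
    15 * ∑ σ : Fin 6 → I, z (w ∘ σ) {0, 1} * z (w ∘ σ) {2, 3} * z (w ∘ σ) {4, 5} := by
  simp only [K222, Finset.sum_add_distrib]
  rw [reidx3 w ![0, 1, 2, 4, 3, 5] (by decide) (A := {0, 1}) (B := {2, 3}) (C := {4, 5}) (A' := {0, 1}) (B' := {2, 4}) (C' := {3, 5}) (by decide) (by decide) (by decide)]
  rw [reidx3 w ![0, 1, 2, 5, 3, 4] (by decide) (A := {0, 1}) (B := {2, 3}) (C := {4, 5}) (A' := {0, 1}) (B' := {2, 5}) (C' := {3, 4}) (by decide) (by decide) (by decide)]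
  rw [reidx3 w ![0, 2, 1, 3, 4, 5] (by decide) (A := {0, 1}) (B := {2, 3}) (C := {4, 5}) (A' := {0, 2}) (B' := {1, 3}) (C' := {4, 5}) (by decide) (by decide) (by decide)]
  rw [reidx3 w ![0, 2, 1, 4, 3, 5] (by decide) (A := {0, 1}) (B := {2, 3}) (C := {4, 5}) (A' := {0, 2}) (B' := {1, 4}) (C' := {3, 5}) (by decide) (by decide) (by decide)]
  rw [reidx3 w ![0, 2, 1, 5, 3, 4] (by decide) (A := {0, 1}) (B := {2, 3}) (C := {4, 5}) (A' := {0, 2}) (B' := {1, 5}) (C' := {3, 4}) (by decide) (by decide) (by decide)]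
  rw [reidx3 w ![0, 3, 1, 2, 4, 5] (by decide) (A := {0, 1}) (B := {2, 3}) (C := {4, 5}) (A' := {0, 3}) (B' := {1, 2}) (C' := {4, 5}) (by decide) (by decide) (by decide)]
  rw [reidx3 w ![0, 3, 1, 4, 2, 5] (by decide) (A := {0, 1}) (B := {2, 3}) (C := {4, 5}) (A' := {0, 3}) (B' := {1, 4}) (C' := {2, 5}) (by decide) (by decide) (by decide)]
  rw [reidx3 w ![0, 3, 1, 5, 2, 4] (by decide) (A := {0, 1}) (B := {2, 3}) (C := {4, 5}) (A' := {0, 3}) (B' := {1, 5}) (C' := {2, 4}) (by decide) (by decide) (by decide)]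
  rw [reidx3 w ![0, 4, 1, 2, 3, 5] (by decide) (A := {0, 1}) (B := {2, 3}) (C := {4, 5}) (A' := {0, 4}) (B' := {1, 2}) (C' := {3, 5}) (by decide) (by decide) (by decide)]
  rw [reidx3 w ![0, 4, 1, 3, 2, 5] (by decide) (A := {0, 1}) (B := {2, 3}) (C := {4, 5}) (A' := {0, 4}) (B' := {1, 3}) (C' := {2, 5}) (by decide) (by decide) (by decide)]
  rw [reidx3 w ![0, 4, 1, 5, 2, 3] (by decide) (A := {0, 1}) (B := {2, 3}) (C := {4, 5}) (A' := {0, 4}) (B' := {1, 5}) (C' := {2, 3}) (by decide) (by decide) (by decide)]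
  rw [reidx3 w ![0, 5, 1, 2, 3, 4] (by decide) (A := {0, 1}) (B := {2, 3}) (C := {4, 5}) (A' := {0, 5}) (B' := {1, 2}) (C' := {3, 4}) (by decide) (by decide) (by decide)]
  rw [reidx3 w ![0, 5, 1, 3, 2, 4] (by decide) (A := {0, 1}) (B := {2, 3}) (C := {4, 5}) (A' := {0, 5}) (B' := {1, 3}) (C' := {2, 4}) (by decide) (by decide) (by decide)]
  rw [reidx3 w ![0, 5, 1, 4, 2, 3] (by decide) (A := {0, 1}) (B := {2, 3}) (C := {4, 5}) (A' := {0, 5}) (B' := {1, 4}) (C' := {2, 3}) (by decide) (by decide) (by decide)]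
  ring

lemma split24 (w : I → ℤ) : ∑ σ : Fin 6 → I, z (w ∘ σ) {0, 1} * z (w ∘ σ) {2, 3, 4, 5} =
    (∑ σ : Fin 2 → I, Z (∑ i, w (σ i))) * ∑ σ : Fin 4 → I, Z (∑ i, w (σ i)) := by
  rw [Finset.sum_mul_sum, ← Fintype.sum_prod_type', ← (Fin.appendEquiv 2 4).sum_comp]
  refine Finset.sum_congr rfl fun p _ => ?_
  have h1 : ∑ i ∈ ({0, 1} : Finset (Fin 6)), w ((Fin.appendEquiv 2 4) p i) =
      ∑ i, w (p.1 i) := by
    rw [Fin.sum_univ_two, Finset.sum_pair (by decide)]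
    rfl
  have h2 : ∑ i ∈ ({2, 3, 4, 5} : Finset (Fin 6)), w ((Fin.appendEquiv 2 4) p i) =
      ∑ i, w (p.2 i) := by
    rw [Fin.sum_univ_four, Finset.sum_insert (by decide), Finset.sum_insert (by decide),
      Finset.sum_pair (by decide), ← add_assoc, ← add_assoc]
    rfl
  simp only [z, Function.comp]
  rw [h1, h2]

lemma split33 (w : I → ℤ) : ∑ σ : Fin 6 → I, z (w ∘ σ) {0, 1, 2} * z (w ∘ σ) {3, 4, 5} =
    (∑ σ : Fin 3 → I, Z (∑ i, w (σ i))) ^ 2 := by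
  rw [sq, Finset.sum_mul_sum, ← Fintype.sum_prod_type', ← (Fin.appendEquiv 3 3).sum_comp]
  refine Finset.sum_congr rfl fun p _ => ?_
  have h1 : ∑ i ∈ ({0, 1, 2} : Finset (Fin 6)), w ((Fin.appendEquiv 3 3) p i) =
      ∑ i, w (p.1 i) := by
    rw [Fin.sum_univ_three, Finset.sum_insert (by decide), Finset.sum_pair (by decide),
      ← add_assoc]
    rfl
  have h2 : ∑ i ∈ ({3, 4, 5} : Finset (Fin 6)), w ((Fin.appendEquiv 3 3) p i) =
      ∑ i, w (p.2 i) := by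
    rw [Fin.sum_univ_three, Finset.sum_insert (by decide), Finset.sum_pair (by decide),
      ← add_assoc]
    rfl
  simp only [z, Function.comp]
  rw [h1, h2]

lemma split222 (w : I → ℤ) :
    ∑ σ : Fin 6 → I, z (w ∘ σ) {0, 1} * z (w ∘ σ) {2, 3} * z (w ∘ σ) {4, 5} =
    (∑ σ : Fin 2 → I, Z (∑ i, w (σ i))) ^ 3 := by
  rw [pow_succ, sq, Finset.sum_mul_sum, ← Fintype.sum_prod_type', Finset.sum_mul_sum,
    ← Fintype.sum_prod_type', ← (Fin.appendEquiv 4 2).sum_comp,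
    ← ((Fin.appendEquiv 2 2).prodCongr (Equiv.refl _)).sum_comp]
  refine Finset.sum_congr rfl fun p _ => ?_
  have h1 : ∑ i ∈ ({0, 1} : Finset (Fin 6)), w ((Fin.appendEquiv 4 2)
      (((Fin.appendEquiv 2 2).prodCongr (Equiv.refl _)) p) i) = ∑ i, w (p.1.1 i) := by
    rw [Fin.sum_univ_two, Finset.sum_pair (by decide)]
    rfl
  have h2 : ∑ i ∈ ({2, 3} : Finset (Fin 6)), w ((Fin.appendEquiv 4 2)
      (((Fin.appendEquiv 2 2).prodCongr (Equiv.refl _)) p) i) = ∑ i, w (p.1.2 i) := by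
    rw [Fin.sum_univ_two, Finset.sum_pair (by decide)]
    rfl
  have h3 : ∑ i ∈ ({4, 5} : Finset (Fin 6)), w ((Fin.appendEquiv 4 2)
      (((Fin.appendEquiv 2 2).prodCongr (Equiv.refl _)) p) i) = ∑ i, w (p.2 i) := by
    rw [Fin.sum_univ_two, Finset.sum_pair (by decide)]
    rfl
  simp only [z, Function.comp]
  rw [h1, h2, h3]

lemma sum_K (w : I → ℤ) : ∑ σ : Fin 6 → I, K (w ∘ σ) =
    (∑ σ : Fin 6 → I, Z (∑ i, w (σ i)))
    - 15 * ((∑ σ : Fin 2 → I, Z (∑ i, w (σ i))) * ∑ σ : Fin 4 → I, Z (∑ i, w (σ i)))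
    - 10 * (∑ σ : Fin 3 → I, Z (∑ i, w (σ i))) ^ 2
    + 30 * (∑ σ : Fin 2 → I, Z (∑ i, w (σ i))) ^ 3 := by
  rw [← split24, ← split33, ← split222]
  simp only [K, Finset.sum_add_distrib, Finset.sum_sub_distrib, ← Finset.mul_sum]
  rw [sum_K24, sum_K33, sum_K222]
  simp only [z, Function.comp]
  ring

end sums

open MeasureTheory Pool.Agent.V11191.LC in
lemma kappa6_eq (a : ℕ → ℤ) (n : ℕ) (ha : ∀ k, a k ≠ 0) :
    64 * cumulant 6 (S a n) =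
      ((∑ σ : Fin 6 → Fin n × Bool, K (fun i => val a (σ i)) : ℤ) : ℝ) := by
  have h1 : ∫ ω, S a n ω ∂P = 0 := by
    have h := moment a n 1
    simp only [pow_one] at h
    rw [h]
    have h2 : ∑ σ : Fin 1 → Fin n × Bool, Z (∑ i, val a (σ i)) = 0 := by
      refine Finset.sum_eq_zero fun σ _ => ?_
      unfold Z
      rw [if_neg]
      rw [Fin.sum_univ_one]
      unfold val
      refine mul_ne_zero ?_ (ha _)
      split_ifs <;> norm_num
    rw [h2]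
    simp
  rw [kappa6 (continuous_S a n) h1, moment, moment, moment, moment]
  have h := sum_K (val a (n := n))
  have h' : ∑ σ : Fin 6 → Fin n × Bool, K (fun i => val a (σ i)) =
      ∑ σ : Fin 6 → Fin n × Bool, K (val a ∘ σ) := rfl
  rw [h', h]
  push_cast
  ring

end Pool.Agent.E4803a
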