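import Pool.Agent.E4803a.Main

set_option autoImplicit false

open Real

namespace Pool.Agent.E4803a


lemma lucas (m : ℕ) : ∃ L : ℤ, goldenRatio ^ m + goldenConj ^ m = L := by
  obtain ⟨x, y, h1, h2⟩ := Zp.phi_pow m
  refine ⟨2 * x + y, ?_⟩
  rw [h1, h2]
  push_cast
  have := goldenRatio_add_goldenConj
  linear_combination (y : ℝ) * this

lemma fr_rel (u : ℕ) : fr (4 * u + 6) - fr (4 * u + 4) - fr (4 * u + 2) = 1 := by
  obtain ⟨L1, h1⟩ := lucas (2 * u + 1)
  obtain ⟨L2, h2⟩ := lucas (2 * u + 2)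
  have e1 : eta ^ (4 * u + 2) = goldenRatio ^ (2 * u + 1) := by
    rw [← eta_sq, ← pow_mul]
    congr 1
    ring
  have e2 : eta ^ (4 * u + 4) = goldenRatio ^ (2 * u + 2) := by
    rw [← eta_sq, ← pow_mul]
    congr 1
    ring
  have e3 : eta ^ (4 * u + 6) = goldenRatio ^ (2 * u + 3) := by
    rw [← eta_sq, ← pow_mul]
    congr 1
    ring
  have hpsi := psi_neg
  have hpsi1 := neg_one_lt_goldenConj
  have hq : 0 < goldenConj ^ (2 * u + 2) := Even.pow_pos ⟨u + 1, by ring⟩ hpsi.ne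
  have hq1 : goldenConj ^ (2 * u + 2) < 1 := by
    have h : |goldenConj| ^ (2 * u + 2) < 1 := pow_lt_one₀ (abs_nonneg _) abs_psi_lt (by omega)
    rwa [← abs_pow, abs_of_pos hq] at h
  have hodd : ∀ m : ℕ, goldenConj ^ (2 * m + 1) < 0 ∧ -1 < goldenConj ^ (2 * m + 1) := by
    intro m
    have h0 : goldenConj ^ (2 * m + 1) < 0 := Odd.pow_neg ⟨m, rfl⟩ hpsi
    refine ⟨h0, ?_⟩
    have h : |goldenConj| ^ (2 * m + 1) < 1 := pow_lt_one₀ (abs_nonneg _) abs_psi_lt (by omega)
    rw [← abs_pow, abs_of_neg h0] at h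
    linarith
  obtain ⟨p1, p2⟩ := hodd u
  obtain ⟨p3, p4⟩ := hodd (u + 1)
  rw [show 2 * (u + 1) + 1 = 2 * u + 3 by ring] at p3 p4
  have f1 : fr (4 * u + 2) = L1 := by
    unfold fr
    rw [e1, Int.floor_eq_iff]
    constructor <;> linarith
  have f2 : fr (4 * u + 4) = L2 - 1 := by
    unfold fr
    rw [e2, Int.floor_eq_iff]
    push_cast
    constructor <;> linarith
  have h3 : goldenRatio ^ (2 * u + 3) + goldenConj ^ (2 * u + 3) = L1 + L2 := by
    rw [← h1, ← h2]
    have ha : goldenRatio ^ (2 * u + 3) = goldenRatio ^ (2 * u + 1) * goldenRatio ^ 2 := by ring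
    have hb : goldenConj ^ (2 * u + 3) = goldenConj ^ (2 * u + 1) * goldenConj ^ 2 := by ring
    rw [ha, hb, goldenRatio_sq, goldenConj_sq]
    ring
  have f3 : fr (4 * u + 6) = L1 + L2 := by
    unfold fr
    rw [e3, Int.floor_eq_iff]
    push_cast
    constructor <;> linarith
  rw [f1, f2, f3]
  ring

/-- the good index tuples -/
def gk (u u' : ℕ) : Fin 6 → ℕ :=
  ![4 * u + 6, 4 * u + 4, 4 * u + 2, 4 * u' + 6, 4 * u' + 4, 4 * u' + 2]

/-- the good signs -/
def gs : Fin 6 → ℤ := ![1, -1, -1, -1, 1, 1]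

lemma gs_Sg : Sg gs := by
  intro i
  fin_cases i <;> simp [gs]

lemma good {u u' : ℕ} (h1 : 1000 ≤ u') (h2 : u' + 100 ≤ u) : K (V (gk u u') gs) = 1 := by
  have ha : Antitone (gk u u') := by
    refine Fin.antitone_iff_succ_le.2 fun i => ?_
    fin_cases i <;> simp [gk] <;> omega
  rw [triple_formula gs_Sg ha (by simp [gk]) (by simp [gk]; omega)
    (by simp [gk]; omega) (by simp [gk])]
  have r1 := fr_rel u
  have r2 := fr_rel u'
  rw [z_one (s := Finset.univ), z_zero (s := {0, 1, 2})]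
  · simp
  · rw [Finset.sum_insert (by decide), Finset.sum_pair (by decide)]
    simp only [V, gk, gs]
    simp
    omega
  · rw [Fin.sum_univ_six]
    simp only [V, gk, gs]
    simp
    omega

variable {n : ℕ}

/-- indices of a tuple -/
def ks (σ : Fin 6 → Fin n × Bool) (i : Fin 6) : ℕ := (σ i).1.val + 1

/-- signs of a tuple -/
def es (σ : Fin 6 → Fin n × Bool) (i : Fin 6) : ℤ := if (σ i).2 then 1 else -1

lemma es_Sg (σ : Fin 6 → Fin n × Bool) : Sg (es σ) := by
  intro i
  unfold es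
  split_ifs <;> simp

lemma V_eq (σ : Fin 6 → Fin n × Bool) : (fun i => val fr (σ i)) = V (ks σ) (es σ) := rfl

open Classical in
/-- good tuples -/
noncomputable def Gd (n : ℕ) : Finset (Fin 6 → Fin n × Bool) :=
  Finset.univ.filter fun σ => ∃ u u', 1000 ≤ u' ∧ u' + 100 ≤ u ∧ ks σ = gk u u' ∧ es σ = gs

open Classical in
/-- bad tuples -/
noncomputable def Bd (n : ℕ) : Finset (Fin 6 → Fin n × Bool) :=
  Finset.univ.filter fun σ => Bad (ks σ)

lemma pointwise (σ : Fin 6 → Fin n × Bool) [Decidable (σ ∈ Gd n)] [Decidable (σ ∈ Bd n)] :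
    (if σ ∈ Gd n then 1 else 0) - 25 * (if σ ∈ Bd n then 1 else 0) ≤
      K (fun i => val fr (σ i)) := by
  rw [V_eq]
  by_cases h1 : σ ∈ Gd n
  · have h2 := h1
    simp only [Gd, Finset.mem_filter, Finset.mem_univ, true_and] at h2
    obtain ⟨u, u', h3, h4, h5, h6⟩ := h2
    rw [h5, h6, good h3 h4, if_pos h1]
    split_ifs <;> norm_num
  · rw [if_neg h1]
    by_cases h2 : σ ∈ Bd n
    · rw [if_pos h2]
      have := K_lower (V (ks σ) (es σ))
      linarith
    · rw [if_neg h2]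
      have h3 : ¬ Bad (ks σ) := by
        simpa only [Bd, Finset.mem_filter, Finset.mem_univ, true_and] using h2
      rcases main_gen (k := ks σ) (es_Sg σ) with h4 | h4
      · exact absurd h4 h3
      · linarith

set_option maxRecDepth 8000 in
lemma Gd_card {N : ℕ} (hN : 1000 ≤ N) (hn : 8 * N + 2 ≤ n) :
    (N - 1000) ^ 2 ≤ (Gd n).card := by
  have h1 : ((Finset.Ico (N + 1000) (2 * N)) ×ˢ (Finset.Ico 1000 N)).card ≤ (Gd n).card := by
    refine Finset.card_le_card_of_surjOn
      (fun σ => ((ks σ 0 - 6) / 4, (ks σ 3 - 6) / 4)) ?_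
    rintro ⟨u, u'⟩ hu
    simp only [Finset.coe_product, Finset.coe_Ico, Set.mem_prod, Set.mem_Ico] at hu
    obtain ⟨⟨a1, a2⟩, b1, b2⟩ := hu
    have hb : ∀ i, gk u u' i - 1 < n := by
      intro i
      fin_cases i <;> simp [gk] <;> omega
    have hb1 : ∀ i, 1 ≤ gk u u' i := by
      intro i
      fin_cases i <;> simp [gk]
    have hk : ks (fun i => ((⟨gk u u' i - 1, hb i⟩ : Fin n), decide (gs i = 1))) = gk u u' := by
      funext i
      have := hb1 i
      simp only [ks]
      omega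
    have he : es (fun i => ((⟨gk u u' i - 1, hb i⟩ : Fin n), decide (gs i = 1))) = gs := by
      funext i
      fin_cases i <;> simp [es, gs]
    refine ⟨fun i => (⟨gk u u' i - 1, hb i⟩, decide (gs i = 1)), ?_, ?_⟩
    · simp only [Gd, Finset.coe_filter, Finset.mem_univ, true_and, Set.mem_ofPred_eq]
      exact ⟨u, u', b1, by omega, hk, he⟩
    · simp only [hk]
      simp [gk]
  refine le_trans ?_ h1
  rw [Finset.card_product, Nat.card_Ico, Nat.card_Ico, sq]
  refine Nat.mul_le_mul ?_ le_rfl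
  omega

lemma Bd_card (n : ℕ) : (Bd n).card ≤ n * 18002 ^ 6 := by
  classical
  set T : Fin n → Finset (Fin n × Bool) := fun c => Finset.univ.filter fun x =>
    x.1.val + 1 ≤ 3000 ∨ (c.val + 1 ≤ x.1.val + 1 + 3000 ∧ x.1.val + 1 ≤ c.val + 1 + 3000)
    with hT
  have h1 : ∀ c, (T c).card ≤ 18002 := by
    intro c
    have h2 : (T c).card ≤ ((Finset.range 3000 ∪ Finset.Icc (c.val - 3000) (c.val + 3000)) ×ˢ
        (Finset.univ : Finset Bool)).card := by
      refine Finset.card_le_card_of_injOn (fun x => (x.1.val, x.2)) ?_ ?_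
      · intro x hx
        simp only [hT, Finset.coe_filter, Finset.mem_univ, true_and, Set.mem_ofPred_eq] at hx
        simp only [Finset.coe_product, Finset.coe_univ, Set.mem_prod, Set.mem_univ, and_true,
          Finset.mem_coe, Finset.mem_union, Finset.mem_range, Finset.mem_Icc]
        omega
      · rintro ⟨x, b⟩ _ ⟨y, b'⟩ _ hxy
        simp only [Prod.mk.injEq] at hxy
        rw [Fin.ext hxy.1, hxy.2]
    refine h2.trans ?_
    rw [Finset.card_product]
    have h3 : (Finset.range 3000 ∪ Finset.Icc (c.val - 3000) (c.val + 3000)).card ≤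
        3000 + 6001 := by
      refine (Finset.card_union_le _ _).trans ?_
      rw [Finset.card_range, Nat.card_Icc]
      omega
    have h4 : (Finset.univ : Finset Bool).card = 2 := rfl
    rw [h4]
    omega
  have h2 : Bd n ⊆ Finset.univ.biUnion fun c : Fin n => Fintype.piFinset fun _ : Fin 6 => T c := by
    intro σ hσ
    simp only [Bd, Finset.mem_filter, Finset.mem_univ, true_and] at hσ
    obtain ⟨j, hj⟩ := hσ
    simp only [Finset.mem_biUnion, Finset.mem_univ, true_and, Fintype.mem_piFinset]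
    refine ⟨(σ j).1, fun i => ?_⟩
    simp only [hT, Finset.mem_filter, Finset.mem_univ, true_and]
    exact hj i
  refine (Finset.card_le_card h2).trans (Finset.card_biUnion_le.trans ?_)
  calc ∑ c : Fin n, (Fintype.piFinset fun _ : Fin 6 => T c).card ≤
        ∑ _c : Fin n, 18002 ^ 6 := by
        refine Finset.sum_le_sum fun c _ => ?_
        rw [Fintype.card_piFinset, Finset.prod_const, Finset.card_univ, Fintype.card_fin]
        exact Nat.pow_le_pow_left (h1 c) 6
    _ = n * 18002 ^ 6 := by simp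

lemma sum_lower {N : ℕ} (hN : 1000 ≤ N) (hn : 8 * N + 2 ≤ n) :
    ((N : ℤ) - 1000) ^ 2 - 25 * (n * 18002 ^ 6) ≤
      ∑ σ : Fin 6 → Fin n × Bool, K (fun i => val fr (σ i)) := by
  classical
  have h1 : ∑ σ : Fin 6 → Fin n × Bool,
      (((if σ ∈ Gd n then 1 else 0) - 25 * (if σ ∈ Bd n then 1 else 0) : ℤ)) ≤
      ∑ σ : Fin 6 → Fin n × Bool, K (fun i => val fr (σ i)) :=
    Finset.sum_le_sum fun σ _ => pointwise σ
  refine le_trans ?_ h1
  rw [Finset.sum_sub_distrib, ← Finset.mul_sum]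
  simp only [Finset.sum_ite_mem, Finset.univ_inter, Finset.sum_const, nsmul_eq_mul, mul_one]
  have h2 : ((N : ℤ) - 1000) ^ 2 ≤ ((Gd n).card : ℤ) := by
    have := Gd_card (n := n) hN hn
    have h3 : (((N - 1000) ^ 2 : ℕ) : ℤ) ≤ ((Gd n).card : ℤ) := by exact_mod_cast this
    rw [Nat.cast_pow, Nat.cast_sub hN] at h3
    exact h3
  have h3 : ((Bd n).card : ℤ) ≤ n * 18002 ^ 6 := by exact_mod_cast Bd_card n
  linarith

end Pool.Agent.E4803a
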