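import Pool.Agent.V11191.LC.Jet

set_option autoImplicit false

open MeasureTheory ProbabilityTheory Filter Topology
open Pool.Agent.V11191.LC

namespace Pool.Agent.E4803a

lemma leib {f : ℝ → ℝ} (hf : SP f) (k : ℕ) : iteratedDeriv (k + 1) f 0 =
    ∑ i ∈ Finset.range (k + 1), (k.choose i : ℝ) * iteratedDeriv i f 0 *
      iteratedDeriv (k - i + 1) (fun t => Real.log (f t)) 0 := by
  rw [iteratedDeriv_succ']
  have h0 : deriv f = f * (fun t => deriv f t / f t) := by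
    funext t
    have := (hf.2 t).ne'
    simp only [Pi.mul_apply]
    field_simp
  have h1 : iteratedDeriv k (deriv f) 0 = iteratedDeriv k (f * (fun t => deriv f t / f t)) 0 := by
    rw [← h0]
  rw [h1, iteratedDeriv_mul (hf.contDiff k).contDiffAt (hf.quot k).contDiffAt]
  refine Finset.sum_congr rfl fun i _ => ?_
  rw [iteratedDeriv_succ', hf.deriv_log]

lemma kappa6 {X : ℝ → ℝ} (hX : Continuous X) (h1 : ∫ ω, X ω ∂P = 0) :
    cumulant 6 X = (∫ ω, X ω ^ 6 ∂P) - 15 * (∫ ω, X ω ^ 4 ∂P) * (∫ ω, X ω ^ 2 ∂P)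
      - 10 * (∫ ω, X ω ^ 3 ∂P) ^ 2 + 30 * (∫ ω, X ω ^ 2 ∂P) ^ 3 := by
  have hf := SP_mgf hX
  have hm := jet_mgf hX
  have l0 := leib hf 0
  have l1 := leib hf 1
  have l2 := leib hf 2
  have l3 := leib hf 3
  have l4 := leib hf 4
  have l5 := leib hf 5
  rw [cumulant_eq]
  simp only [Finset.sum_range_succ, Finset.sum_range_zero, hm] at l0 l1 l2 l3 l4 l5
  norm_num [Nat.choose, h1] at l0 l1 l2 l3 l4 l5
  generalize iteratedDeriv 6 (fun t => Real.log (mgf X P t)) 0 = κ6 at *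
  generalize iteratedDeriv 5 (fun t => Real.log (mgf X P t)) 0 = κ5 at *
  generalize iteratedDeriv 4 (fun t => Real.log (mgf X P t)) 0 = κ4 at *
  generalize iteratedDeriv 3 (fun t => Real.log (mgf X P t)) 0 = κ3 at *
  generalize iteratedDeriv 2 (fun t => Real.log (mgf X P t)) 0 = κ2 at *
  rw [← l0] at l2 l3 l4 l5
  simp only [mul_zero, add_zero] at l2 l3 l4 l5
  rw [← l1] at l3 l4 l5
  rw [← l2] at l4 l5
  linear_combination (-1 : ℝ) * l5 + 10 * (∫ ω, X ω ^ 2 ∂P) * l3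

/-- the indicator of zero -/
def Z (x : ℤ) : ℤ := if x = 0 then 1 else 0

/-- the partial cosine sums -/
noncomputable def S (a : ℕ → ℤ) (n : ℕ) (ω : ℝ) : ℝ :=
  ∑ k ∈ Finset.Icc 1 n, Real.cos (2 * Real.pi * (a k : ℝ) * ω)

/-- signed frequencies -/
def val (a : ℕ → ℤ) {n : ℕ} (x : Fin n × Bool) : ℤ := (if x.2 then 1 else -1) * a (x.1.val + 1)

lemma continuous_S (a : ℕ → ℤ) (n : ℕ) : Continuous (S a n) := by
  unfold S
  fun_prop

lemma S_eq (a : ℕ → ℤ) (n : ℕ) (ω : ℝ) :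
    ((S a n ω : ℝ) : ℂ) = (1 / 2) * ∑ x : Fin n × Bool, e (val a x) ω := by
  rw [Fintype.sum_prod_type]
  simp only [Fintype.sum_bool, val, if_true, Bool.false_eq_true, if_false]
  unfold S
  rw [← Finset.sum_range (fun k => e (1 * a (k + 1)) ω + e (-1 * a (k + 1)) ω), Finset.mul_sum]
  rw [Finset.range_eq_Ico, Finset.sum_Ico_add' (fun k => 1 / 2 * (e (1 * a k) ω + e (-1 * a k) ω)) 0 n 1]
  push_cast
  refine Finset.sum_congr ?_ fun k _ => ?_
  · ext k
    simp only [Finset.mem_Icc, Finset.mem_Ico]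
    omega
  · have h := congrFun (cc_eq (a k)) ω
    simp only [cc] at h
    push_cast at h
    rw [h, one_mul, neg_one_mul]
    ring

lemma prod_e {m : ℕ} (u : Fin m → ℤ) (ω : ℝ) : ∏ i, e (u i) ω = e (∑ i, u i) ω := by
  induction m with
  | zero => simp [e_zero]
  | succ m ih =>
    rw [Fin.prod_univ_succ, Fin.sum_univ_succ, ih, e_add]
    rfl

lemma moment (a : ℕ → ℤ) (n m : ℕ) :
    ∫ ω, S a n ω ^ m ∂P = (1 / 2) ^ m * ((∑ σ : Fin m → Fin n × Bool, Z (∑ i, val a (σ i)) : ℤ) : ℝ) := by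
  have h1 : ∀ ω, ((S a n ω ^ m : ℝ) : ℂ) =
      (1 / 2) ^ m * ∑ σ : Fin m → Fin n × Bool, e (∑ i, val a (σ i)) ω := by
    intro ω
    push_cast
    rw [S_eq, mul_pow, Fintype.sum_pow]
    congr 1
    refine Finset.sum_congr rfl fun σ _ => ?_
    exact prod_e _ _
  have h2 : ∫ ω, ((S a n ω ^ m : ℝ) : ℂ) ∂P =
      (1 / 2) ^ m * ∑ σ : Fin m → Fin n × Bool, ∫ ω, e (∑ i, val a (σ i)) ω ∂P := by
    simp only [h1]
    rw [integral_const_mul, integral_finsetSum _
      (fun σ _ => integrable_of_continuous (continuous_e _))]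
  rw [integral_complex_ofReal] at h2
  simp only [integral_e] at h2
  have h3 : (∑ σ : Fin m → Fin n × Bool, if (∑ i, val a (σ i)) = 0 then (1 : ℂ) else 0) =
      (((∑ σ : Fin m → Fin n × Bool, Z (∑ i, val a (σ i)) : ℤ) : ℝ) : ℂ) := by
    push_cast [Z]
    refine Finset.sum_congr rfl fun σ _ => ?_
    split_ifs <;> simp
  rw [h3] at h2
  apply Complex.ofReal_injective
  rw [h2, Complex.ofReal_mul]
  congr 1
  push_cast
  rfl

end Pool.Agent.E4803a
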