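import Mathlib

set_option autoImplicit false

open Real

namespace Pool.Agent.E4803a

/-- the square root of the golden ratio -/
noncomputable def eta : ℝ := √goldenRatio


lemma eta_sq : eta ^ 2 = goldenRatio := Real.sq_sqrt goldenRatio_pos.le

lemma eta_gt_one : 1 < eta := by
  unfold eta
  rw [Real.lt_sqrt (by norm_num)]
  simpa using one_lt_goldenRatio

lemma eta_pos : 0 < eta := lt_trans one_pos eta_gt_one

/-- conjugate pairs in `ℤ[goldenRatio]` -/
def Zp (a a' : ℝ) : Prop := ∃ x y : ℤ, a = x + y * goldenRatio ∧ a' = x + y * goldenConj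

lemma Zp.add {a a' b b' : ℝ} (h : Zp a a') (k : Zp b b') : Zp (a + b) (a' + b') := by
  obtain ⟨x, y, rfl, rfl⟩ := h
  obtain ⟨x', y', rfl, rfl⟩ := k
  exact ⟨x + x', y + y', by push_cast; ring, by push_cast; ring⟩

lemma Zp.mul {a a' b b' : ℝ} (h : Zp a a') (k : Zp b b') : Zp (a * b) (a' * b') := by
  obtain ⟨x, y, rfl, rfl⟩ := h
  obtain ⟨x', y', rfl, rfl⟩ := k
  refine ⟨x * x' + y * y', x * y' + y * x' + y * y', ?_, ?_⟩
  · push_cast
    linear_combination (y * y' : ℝ) * goldenRatio_sq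
  · push_cast
    linear_combination (y * y' : ℝ) * goldenConj_sq

lemma Zp.int (x : ℤ) : Zp x x := ⟨x, 0, by simp, by simp⟩

lemma Zp.phi : Zp goldenRatio goldenConj := ⟨0, 1, by simp, by simp⟩

lemma Zp.sub {a a' b b' : ℝ} (h : Zp a a') (k : Zp b b') : Zp (a - b) (a' - b') := by
  have := h.add ((Zp.int (-1)).mul k)
  push_cast at this
  convert this using 1 <;> ring

lemma Zp.phi_pow (m : ℕ) : Zp (goldenRatio ^ m) (goldenConj ^ m) := by
  induction m with
  | zero => simpa using Zp.int 1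
  | succ m ih => exact ih.mul Zp.phi

lemma Zp.sum {ι : Type} (s : Finset ι) {f g : ι → ℝ} (h : ∀ i ∈ s, Zp (f i) (g i)) :
    Zp (∑ i ∈ s, f i) (∑ i ∈ s, g i) := by
  classical
  induction s using Finset.induction_on with
  | empty => simpa using Zp.int 0
  | insert a s ha ih =>
    rw [Finset.sum_insert ha, Finset.sum_insert ha]
    exact (h a (Finset.mem_insert_self a s)).add
      (ih fun i hi => h i (Finset.mem_insert_of_mem hi))

lemma Zp.norm {a a' : ℝ} (h : Zp a a') (h0 : a ≠ 0) : 1 ≤ |a * a'| := by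
  obtain ⟨x, y, rfl, rfl⟩ := h
  have h1 : ((x : ℝ) + y * goldenRatio) * (x + y * goldenConj) = ((x ^ 2 + x * y - y ^ 2 : ℤ) : ℝ) := by
    push_cast
    have h2 := goldenRatio_add_goldenConj
    have h3 := goldenRatio_mul_goldenConj
    linear_combination (x * y : ℝ) * h2 + (y ^ 2 : ℝ) * h3
  rw [h1]
  have h4 : (x ^ 2 + x * y - y ^ 2 : ℤ) ≠ 0 := by
    intro h5
    rw [h5] at h1
    rcases mul_eq_zero.1 (h1.trans (by simp)) with h6 | h6
    · exact h0 h6
    · by_cases hy : y = 0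
      · subst hy
        simp at h6 h0
        exact h0 (by exact_mod_cast h6)
      · apply goldenConj_irrational
        refine ⟨(-x : ℚ) / y, ?_⟩
        have hy' : (y : ℝ) ≠ 0 := by exact_mod_cast hy
        push_cast
        rw [div_eq_iff hy']
        linarith
  have h5 : (1 : ℤ) ≤ |x ^ 2 + x * y - y ^ 2| := Int.one_le_abs h4
  exact_mod_cast h5

lemma Zp.eq_zero {a a' : ℝ} (h : Zp a a') (h0 : a' = 0) : a = 0 := by
  by_contra h1
  have h2 := h.norm h1
  rw [h0, mul_zero, abs_zero] at h2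
  linarith

lemma Zp.eq_zero' {a a' : ℝ} (h : Zp a a') (h0 : a = 0) : a' = 0 := by
  obtain ⟨x, y, rfl, rfl⟩ := h
  by_cases hy : y = 0
  · subst hy
    simpa using h0
  · exfalso
    apply goldenRatio_irrational
    refine ⟨(-x : ℚ) / y, ?_⟩
    have hy' : (y : ℝ) ≠ 0 := by exact_mod_cast hy
    push_cast
    rw [div_eq_iff hy']
    linarith

lemma psi_neg : goldenConj < 0 := goldenConj_neg

lemma abs_psi_lt : |goldenConj| < 1 := by
  rw [abs_lt]
  exact ⟨neg_one_lt_goldenConj, goldenConj_neg.trans one_pos⟩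

/-- the even part -/
noncomputable def ev (x : ℝ) (e : ℕ) : ℝ := if Even e then x ^ (e / 2) else 0

/-- the odd part -/
noncomputable def od (x : ℝ) (e : ℕ) : ℝ := if Even e then 0 else x ^ (e / 2)

lemma eta_pow (e : ℕ) : eta ^ e = ev goldenRatio e + eta * od goldenRatio e := by
  unfold ev od
  split_ifs with h
  · obtain ⟨r, rfl⟩ := h
    rw [show (r + r) / 2 = r by omega, ← eta_sq, ← pow_mul]
    ring
  · rw [Nat.not_even_iff_odd] at h
    obtain ⟨r, rfl⟩ := h
    rw [show (2 * r + 1) / 2 = r by omega, ← eta_sq, ← pow_mul]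
    ring

lemma neg_eta_pow (e : ℕ) : (-eta) ^ e = ev goldenRatio e - eta * od goldenRatio e := by
  unfold ev od
  split_ifs with h
  · obtain ⟨r, rfl⟩ := h
    rw [show (r + r) / 2 = r by omega, ← eta_sq, ← pow_mul]
    rw [Even.neg_pow ⟨r, rfl⟩]
    ring
  · rw [Nat.not_even_iff_odd] at h
    rw [h.neg_pow]
    obtain ⟨r, rfl⟩ := h
    rw [show (2 * r + 1) / 2 = r by omega, ← eta_sq, ← pow_mul]
    ring

lemma ev_od_le (e : ℕ) : |ev goldenConj e| + |od goldenConj e| ≤ 1 := by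
  unfold ev od
  have h := pow_le_one₀ (abs_nonneg goldenConj) abs_psi_lt.le (n := e / 2)
  split_ifs
  · rw [abs_pow, abs_zero, add_zero]
    exact h
  · rw [abs_pow, abs_zero, zero_add]
    exact h

lemma Zp.ev (e : ℕ) : Zp (ev goldenRatio e) (ev goldenConj e) := by
  unfold E4803a.ev
  split_ifs
  · exact Zp.phi_pow _
  · simpa using Zp.int 0

lemma Zp.od (e : ℕ) : Zp (od goldenRatio e) (od goldenConj e) := by
  unfold E4803a.od
  split_ifs
  · simpa using Zp.int 0
  · exact Zp.phi_pow _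

lemma card_le_six (s : Finset (Fin 6)) : (s.card : ℝ) ≤ 6 := by
  have := Finset.card_le_univ s
  simp at this
  exact_mod_cast this

/-- Liouville type lower bound -/
lemma liouville (s : Finset (Fin 6)) (ε : Fin 6 → ℤ) (hε : ∀ i, |ε i| ≤ 1) (e : Fin 6 → ℕ)
    (G : ℕ) (he : ∀ i ∈ s, e i ≤ G) (hP : ∑ i ∈ s, (ε i : ℝ) * eta ^ e i ≠ 0) :
    1 ≤ 216 * eta ^ G * |∑ i ∈ s, (ε i : ℝ) * eta ^ e i| := by
  have hε' : ∀ i, |(ε i : ℝ)| ≤ 1 := fun i => by exact_mod_cast hε i
  set A : ℝ := ∑ i ∈ s, (ε i : ℝ) * ev goldenRatio (e i) with hA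
  set B : ℝ := ∑ i ∈ s, (ε i : ℝ) * od goldenRatio (e i) with hB
  set A' : ℝ := ∑ i ∈ s, (ε i : ℝ) * ev goldenConj (e i) with hA'
  set B' : ℝ := ∑ i ∈ s, (ε i : ℝ) * od goldenConj (e i) with hB'
  have zA : Zp A A' := Zp.sum s fun i _ => (Zp.int (ε i)).mul (Zp.ev (e i))
  have zB : Zp B B' := Zp.sum s fun i _ => (Zp.int (ε i)).mul (Zp.od (e i))
  have hPA : ∑ i ∈ s, (ε i : ℝ) * eta ^ e i = A + eta * B := by
    rw [hA, hB, Finset.mul_sum, ← Finset.sum_add_distrib]
    refine Finset.sum_congr rfl fun i _ => ?_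
    rw [eta_pow]
    ring
  have hQA : ∑ i ∈ s, (ε i : ℝ) * (-eta) ^ e i = A - eta * B := by
    rw [hA, hB, Finset.mul_sum, ← Finset.sum_sub_distrib]
    refine Finset.sum_congr rfl fun i _ => ?_
    rw [neg_eta_pow]
    ring
  have hQ : |A - eta * B| ≤ 6 * eta ^ G := by
    rw [← hQA]
    calc |∑ i ∈ s, (ε i : ℝ) * (-eta) ^ e i| ≤ ∑ i ∈ s, |(ε i : ℝ) * (-eta) ^ e i| :=
          Finset.abs_sum_le_sum_abs _ _
      _ ≤ ∑ i ∈ s, eta ^ G := by
          refine Finset.sum_le_sum fun i hi => ?_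
          rw [abs_mul, abs_pow, abs_neg, abs_of_pos eta_pos]
          have h1 : eta ^ e i ≤ eta ^ G := pow_le_pow_right₀ eta_gt_one.le (he i hi)
          have h2 : 0 ≤ eta ^ e i := pow_nonneg eta_pos.le _
          nlinarith [hε' i, abs_nonneg (ε i : ℝ)]
      _ ≤ 6 * eta ^ G := by
          rw [Finset.sum_const, nsmul_eq_mul]
          exact mul_le_mul_of_nonneg_right (card_le_six s) (pow_nonneg eta_pos.le _)
  have hAB' : |A'| + |B'| ≤ 6 := by
    calc |A'| + |B'| ≤ (∑ i ∈ s, |(ε i : ℝ) * ev goldenConj (e i)|) +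
          ∑ i ∈ s, |(ε i : ℝ) * od goldenConj (e i)| :=
          add_le_add (Finset.abs_sum_le_sum_abs _ _) (Finset.abs_sum_le_sum_abs _ _)
      _ = ∑ i ∈ s, (|(ε i : ℝ) * ev goldenConj (e i)| + |(ε i : ℝ) * od goldenConj (e i)|) :=
          Finset.sum_add_distrib.symm
      _ ≤ ∑ i ∈ s, (1 : ℝ) := by
          refine Finset.sum_le_sum fun i _ => ?_
          rw [abs_mul, abs_mul, ← mul_add]
          exact mul_le_one₀ (hε' i) (by positivity) (ev_od_le _)
      _ ≤ 6 := by
          rw [Finset.sum_const, nsmul_eq_mul, mul_one]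
          exact card_le_six s
  have zM : Zp (A * A - goldenRatio * (B * B)) (A' * A' - goldenConj * (B' * B')) :=
    (zA.mul zA).sub (Zp.phi.mul (zB.mul zB))
  have hM0 : A * A - goldenRatio * (B * B) ≠ 0 := by
    intro h
    have h1 := zM.eq_zero' h
    have h2 := psi_neg
    have h3 : A' = 0 := by nlinarith [mul_self_nonneg A', mul_self_nonneg B']
    have h4 : B' = 0 := by
      rw [h3] at h1
      have : goldenConj * (B' * B') = 0 := by linarith
      rcases mul_eq_zero.1 this with h5 | h5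
      · exact absurd h5 h2.ne
      · exact mul_self_eq_zero.1 h5
    rw [hPA, zA.eq_zero h3, zB.eq_zero h4] at hP
    exact hP (by ring)
  have h1 := zM.norm hM0
  have h2 : |A' * A' - goldenConj * (B' * B')| ≤ 36 := by
    have h3 := neg_one_lt_goldenConj
    have h4 := psi_neg
    have h5 : A' * A' = |A'| * |A'| := (abs_mul_abs_self A').symm
    have h6 : B' * B' = |B'| * |B'| := (abs_mul_abs_self B').symm
    have h7 := abs_nonneg A'
    have h8 := abs_nonneg B'
    rw [abs_le]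
    constructor
    · nlinarith [mul_self_nonneg A', mul_self_nonneg B']
    · have h9 : -goldenConj * (B' * B') ≤ 1 * (B' * B') :=
        mul_le_mul_of_nonneg_right (by linarith) (mul_self_nonneg B')
      nlinarith [mul_nonneg h7 h8]
  have h3 : A * A - goldenRatio * (B * B) = (A - eta * B) * (A + eta * B) := by
    rw [← eta_sq]
    ring
  rw [hPA]
  calc (1 : ℝ) ≤ |(A * A - goldenRatio * (B * B)) * (A' * A' - goldenConj * (B' * B'))| := h1
    _ = |A - eta * B| * |A + eta * B| * |A' * A' - goldenConj * (B' * B')| := by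
        rw [abs_mul, h3, abs_mul]
    _ ≤ (6 * eta ^ G) * |A + eta * B| * 36 :=
        mul_le_mul (mul_le_mul_of_nonneg_right hQ (abs_nonneg _)) h2 (abs_nonneg _)
          (mul_nonneg (mul_nonneg (by norm_num) (pow_nonneg eta_pos.le _)) (abs_nonneg _))
    _ = 216 * eta ^ G * |A + eta * B| := by ring

lemma eta_int : IsIntegral ℤ eta := by
  refine ⟨Polynomial.X ^ 4 - Polynomial.X ^ 2 - 1, by monicity!, ?_⟩
  simp only [Polynomial.eval₂_sub, Polynomial.eval₂_pow, Polynomial.eval₂_X,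
    Polynomial.eval₂_one]
  have h := goldenRatio_sq
  rw [← eta_sq] at h
  linear_combination h

lemma poly_conj (p : Polynomial ℤ) (h : Polynomial.aeval eta p = 0) :
    Polynomial.aeval (-eta) p = 0 := by
  rw [Polynomial.aeval_eq_sum_range] at h ⊢
  simp only [zsmul_eq_mul] at h ⊢
  set s := Finset.range (p.natDegree + 1)
  set A : ℝ := ∑ i ∈ s, (p.coeff i : ℝ) * ev goldenRatio i with hA
  set B : ℝ := ∑ i ∈ s, (p.coeff i : ℝ) * od goldenRatio i with hB
  set A' : ℝ := ∑ i ∈ s, (p.coeff i : ℝ) * ev goldenConj i with hA'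
  set B' : ℝ := ∑ i ∈ s, (p.coeff i : ℝ) * od goldenConj i with hB'
  have zA : Zp A A' := Zp.sum s fun i _ => (Zp.int _).mul (Zp.ev i)
  have zB : Zp B B' := Zp.sum s fun i _ => (Zp.int _).mul (Zp.od i)
  have hPA : ∑ i ∈ s, (p.coeff i : ℝ) * eta ^ i = A + eta * B := by
    rw [hA, hB, Finset.mul_sum, ← Finset.sum_add_distrib]
    refine Finset.sum_congr rfl fun i _ => ?_
    rw [eta_pow]
    ring
  have hQA : ∑ i ∈ s, (p.coeff i : ℝ) * (-eta) ^ i = A - eta * B := by
    rw [hA, hB, Finset.mul_sum, ← Finset.sum_sub_distrib]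
    refine Finset.sum_congr rfl fun i _ => ?_
    rw [neg_eta_pow]
    ring
  have zM : Zp (A * A - goldenRatio * (B * B)) (A' * A' - goldenConj * (B' * B')) :=
    (zA.mul zA).sub (Zp.phi.mul (zB.mul zB))
  have h0 : A * A - goldenRatio * (B * B) = 0 := by
    have h3 : A * A - goldenRatio * (B * B) = (A - eta * B) * (A + eta * B) := by
      rw [← eta_sq]
      ring
    rw [h3, ← hPA, h, mul_zero]
  have h1 := zM.eq_zero' h0
  have h2 := psi_neg
  have h3 : A' = 0 := by nlinarith [mul_self_nonneg A', mul_self_nonneg B']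
  have h4 : B' = 0 := by
    rw [h3] at h1
    have : goldenConj * (B' * B') = 0 := by linarith
    rcases mul_eq_zero.1 this with h5 | h5
    · exact absurd h5 h2.ne
    · exact mul_self_eq_zero.1 h5
  rw [hQA, zA.eq_zero h3, zB.eq_zero h4]
  ring

lemma minpoly_conj : Polynomial.aeval (((-eta : ℝ) : ℂ)) (minpoly ℚ eta) = 0 := by
  rw [minpoly.isIntegrallyClosed_eq_field_fractions' ℚ eta_int, Polynomial.aeval_map_algebraMap]
  have h := poly_conj (minpoly ℤ eta) (minpoly.aeval ℤ eta)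
  have h2 := Polynomial.aeval_algebraMap_apply ℂ (-eta) (minpoly ℤ eta)
  rw [h, map_zero] at h2
  exact h2

end Pool.Agent.E4803a
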