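import Pool.Agent.E4803a.Comb
import Pool.Agent.E4803a.Liou

set_option autoImplicit false

open Real

namespace Pool.Agent.E4803a


/-- the frequencies -/
noncomputable def fr (k : ℕ) : ℤ := ⌊eta ^ k⌋

lemma fr_pos (k : ℕ) : 1 ≤ fr k := by
  unfold fr
  rw [Int.le_floor]
  simpa using one_le_pow₀ eta_gt_one.le

/-- the real relation sum -/
noncomputable def R (k : Fin 6 → ℕ) (ε : Fin 6 → ℤ) (s : Finset (Fin 6)) : ℝ :=
  ∑ i ∈ s, (ε i : ℝ) * eta ^ k i

/-- the integer values -/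
noncomputable def V (k : Fin 6 → ℕ) (ε : Fin 6 → ℤ) (i : Fin 6) : ℤ := ε i * fr (k i)

/-- signs -/
def Sg (ε : Fin 6 → ℤ) : Prop := ∀ i, ε i = 1 ∨ ε i = -1

lemma Sg.abs {ε : Fin 6 → ℤ} (h : Sg ε) (i : Fin 6) : |ε i| = 1 := by
  rcases h i with h | h <;> rw [h] <;> rfl

lemma V_ne {k : Fin 6 → ℕ} {ε : Fin 6 → ℤ} (h : Sg ε) (i : Fin 6) : V k ε i ≠ 0 := by
  unfold V
  have := fr_pos (k i)
  rcases h i with h | h <;> rw [h] <;> omega

lemma R_le {k : Fin 6 → ℕ} {ε : Fin 6 → ℤ} (h : Sg ε) {s : Finset (Fin 6)}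
    (hs : ∑ i ∈ s, V k ε i = 0) : |R k ε s| ≤ 6 := by
  have h1 : R k ε s = ∑ i ∈ s, (ε i : ℝ) * Int.fract (eta ^ k i) := by
    have h2 : ((∑ i ∈ s, V k ε i : ℤ) : ℝ) = 0 := by rw [hs]; simp
    have h3 : R k ε s = R k ε s - ((∑ i ∈ s, V k ε i : ℤ) : ℝ) := by rw [h2, sub_zero]
    rw [h3]
    unfold R V fr
    push_cast
    rw [← Finset.sum_sub_distrib]
    refine Finset.sum_congr rfl fun i _ => ?_
    rw [← mul_sub]
    rfl
  rw [h1]
  calc |∑ i ∈ s, (ε i : ℝ) * Int.fract (eta ^ k i)| ≤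
        ∑ i ∈ s, |(ε i : ℝ) * Int.fract (eta ^ k i)| := Finset.abs_sum_le_sum_abs _ _
    _ ≤ ∑ i ∈ s, (1 : ℝ) := by
        refine Finset.sum_le_sum fun i _ => ?_
        have h4 : |(ε i : ℝ)| = 1 := by exact_mod_cast h.abs i
        rw [abs_mul, h4, one_mul, Int.abs_fract]
        exact (Int.fract_lt_one _).le
    _ ≤ 6 := by
        rw [Finset.sum_const, nsmul_eq_mul, mul_one]
        exact card_le_six s

lemma eta40 : 2592 < eta ^ 40 := by
  have h1 : eta ^ 40 = goldenRatio ^ 20 := by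
    rw [← eta_sq, ← pow_mul]
  have h2 := goldenRatio_sq
  have h4 : goldenRatio ^ 4 = 3 * goldenRatio + 2 := by
    linear_combination (goldenRatio ^ 2 + goldenRatio + 2) * h2
  have h8 : goldenRatio ^ 8 = 21 * goldenRatio + 13 := by
    have : goldenRatio ^ 8 = (goldenRatio ^ 4) ^ 2 := by ring
    rw [this, h4]
    linear_combination 9 * h2
  have h16 : goldenRatio ^ 16 = 987 * goldenRatio + 610 := by
    have : goldenRatio ^ 16 = (goldenRatio ^ 8) ^ 2 := by ring
    rw [this, h8]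
    linear_combination 441 * h2
  have h20 : goldenRatio ^ 20 = 6765 * goldenRatio + 4181 := by
    have : goldenRatio ^ 20 = goldenRatio ^ 16 * goldenRatio ^ 4 := by ring
    rw [this, h16, h4]
    linear_combination 2961 * h2
  rw [h1, h20]
  have := one_lt_goldenRatio
  linarith

/-- the cut lemma -/
lemma cut {k : Fin 6 → ℕ} {ε : Fin 6 → ℤ} (h : Sg ε) {s T : Finset (Fin 6)} (hT : T ⊆ s)
    {M G : ℕ} (h1 : ∀ i ∈ T, k i ≤ M ∧ M ≤ k i + G) (h2 : ∀ i ∈ s \ T, k i + (2 * G + 40) ≤ M)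
    (hM : 2 * G + 40 ≤ M) (hR : |R k ε s| ≤ 6) : R k ε T = 0 := by
  by_contra hne
  have hε : ∀ i, |ε i| ≤ 1 := fun i => (h.abs i).le
  obtain ⟨r, rfl⟩ := Nat.exists_eq_add_of_le hM
  set e : Fin 6 → ℕ := fun i => k i - (G + 40 + r) with he
  have hk : ∀ i ∈ T, k i = e i + (G + 40 + r) := by
    intro i hi
    have := h1 i hi
    simp only [he]
    omega
  have hRT : R k ε T = eta ^ (G + 40 + r) * ∑ i ∈ T, (ε i : ℝ) * eta ^ e i := by
    unfold R
    rw [Finset.mul_sum]
    refine Finset.sum_congr rfl fun i hi => ?_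
    rw [hk i hi, pow_add]
    ring
  have hne' : ∑ i ∈ T, (ε i : ℝ) * eta ^ e i ≠ 0 := by
    intro h0
    rw [hRT, h0, mul_zero] at hne
    exact hne rfl
  have hl := liouville T ε hε e G (fun i hi => by
    have := h1 i hi
    simp only [he]
    omega) hne'
  have hpos : ∀ m : ℕ, 0 < eta ^ m := fun m => pow_pos eta_pos m
  have hRT' : |R k ε T| ≤ 6 + 6 * eta ^ r := by
    have h3 : R k ε s = R k ε T + R k ε (s \ T) := by
      unfold R
      rw [add_comm, Finset.sum_sdiff hT]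
    have h4 : |R k ε (s \ T)| ≤ 6 * eta ^ r := by
      unfold R
      calc |∑ i ∈ s \ T, (ε i : ℝ) * eta ^ k i| ≤ ∑ i ∈ s \ T, |(ε i : ℝ) * eta ^ k i| :=
            Finset.abs_sum_le_sum_abs _ _
        _ ≤ ∑ i ∈ s \ T, eta ^ r := by
            refine Finset.sum_le_sum fun i hi => ?_
            have h5 : |(ε i : ℝ)| = 1 := by exact_mod_cast h.abs i
            rw [abs_mul, h5, one_mul, abs_of_pos (hpos _)]
            refine pow_le_pow_right₀ eta_gt_one.le ?_
            have := h2 i hi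
            omega
        _ ≤ 6 * eta ^ r := by
            rw [Finset.sum_const, nsmul_eq_mul]
            exact mul_le_mul_of_nonneg_right (card_le_six _) (hpos r).le
    have h5 : R k ε T = R k ε s - R k ε (s \ T) := by rw [h3]; ring
    rw [h5]
    calc |R k ε s - R k ε (s \ T)| ≤ |R k ε s| + |R k ε (s \ T)| := abs_sub _ _
      _ ≤ 6 + 6 * eta ^ r := add_le_add hR h4
  rw [hRT, abs_mul, abs_of_pos (hpos _)] at hRT'
  have h6 : eta ^ (G + 40 + r) ≤ 216 * eta ^ G * (6 + 6 * eta ^ r) := by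
    calc eta ^ (G + 40 + r) = eta ^ (G + 40 + r) * 1 := (mul_one _).symm
      _ ≤ eta ^ (G + 40 + r) * (216 * eta ^ G * |∑ i ∈ T, (ε i : ℝ) * eta ^ e i|) :=
          mul_le_mul_of_nonneg_left hl (hpos _).le
      _ = 216 * eta ^ G * (eta ^ (G + 40 + r) * |∑ i ∈ T, (ε i : ℝ) * eta ^ e i|) := by ring
      _ ≤ 216 * eta ^ G * (6 + 6 * eta ^ r) :=
          mul_le_mul_of_nonneg_left hRT' (by have := hpos G; positivity)
  rw [pow_add, pow_add] at h6
  have h7 : eta ^ 40 * eta ^ r ≤ 216 * (6 + 6 * eta ^ r) := by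
    have : eta ^ G * (eta ^ 40 * eta ^ r) ≤ eta ^ G * (216 * (6 + 6 * eta ^ r)) := by
      calc eta ^ G * (eta ^ 40 * eta ^ r) = eta ^ G * eta ^ 40 * eta ^ r := by ring
        _ ≤ _ := h6
        _ = _ := by ring
    exact le_of_mul_le_mul_left this (hpos G)
  have h8 : 1 ≤ eta ^ r := one_le_pow₀ eta_gt_one.le
  have h9 := eta40
  nlinarith

lemma cut2 {k : Fin 6 → ℕ} {ε : Fin 6 → ℤ} (h : Sg ε) {s : Finset (Fin 6)}
    (B A : Finset (Fin 6)) (hd : Disjoint A B) {M G : ℕ}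
    (hs : |R k ε s| ≤ 6) (hB : R k ε (s ∩ B) = 0)
    (hA : ∀ i ∈ A, k i ≤ M ∧ M ≤ k i + G)
    (hr : ∀ i, i ∉ B → i ∉ A → k i + (2 * G + 40) ≤ M) (hM : 2 * G + 40 ≤ M) :
    R k ε (s ∩ A) = 0 := by
  refine cut h (s := s \ B) (T := s ∩ A) (M := M) (G := G) ?_ ?_ ?_ hM ?_
  · intro i hi
    rw [Finset.mem_inter] at hi
    rw [Finset.mem_sdiff]
    exact ⟨hi.1, Finset.disjoint_left.1 hd hi.2⟩
  · intro i hi
    exact hA i (Finset.mem_inter.1 hi).2
  · intro i hi
    simp only [Finset.mem_sdiff, Finset.mem_inter, not_and] at hi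
    exact hr i hi.1.2 (hi.2 hi.1.1)
  · have h1 : R k ε (s \ B) = R k ε s := by
      have h2 : R k ε (s \ B) + R k ε (s ∩ B) = R k ε s := by
        unfold R
        rw [add_comm]
        exact Finset.sum_inter_add_sum_sdiff _ _ _
      rw [hB, add_zero] at h2
      exact h2
    rw [h1]
    exact hs

lemma R_single {k : Fin 6 → ℕ} {ε : Fin 6 → ℤ} (h : Sg ε) (i : Fin 6) : R k ε {i} ≠ 0 := by
  unfold R
  rw [Finset.sum_singleton]
  refine mul_ne_zero ?_ (pow_pos eta_pos _).ne'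
  rcases h i with h | h <;> rw [h] <;> norm_num

lemma R_pair {k : Fin 6 → ℕ} {ε : Fin 6 → ℤ} (h : Sg ε) {i j : Fin 6} (hij : i ≠ j)
    (hR : R k ε {i, j} = 0) : V k ε i + V k ε j = 0 := by
  unfold R at hR
  rw [Finset.sum_pair hij] at hR
  have h1 := pow_pos eta_pos (k i)
  have h2 := pow_pos eta_pos (k j)
  have key : eta ^ k i = eta ^ k j → k i = k j := fun h3 =>
    (pow_right_injective₀ eta_pos eta_gt_one.ne') h3
  unfold V
  rcases h i with hi | hi <;> rcases h j with hj | hj <;> rw [hi, hj] at hR ⊢ <;>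
    push_cast at hR
  · linarith
  · rw [key (by linarith)]; ring
  · rw [key (by linarith)]; ring
  · linarith

/-- bad index tuples -/
def Bad (k : Fin 6 → ℕ) : Prop :=
  ∃ j, ∀ i, k i ≤ 3000 ∨ (k j ≤ k i + 3000 ∧ k i ≤ k j + 3000)

lemma notmem_of {k : Fin 6 → ℕ} {ε : Fin 6 → ℤ} (h : Sg ε) {x : Fin 6}
    (hR : ∀ s : Finset (Fin 6), ∑ i ∈ s, V k ε i = 0 → R k ε (s ∩ {x}) = 0) :
    K (V k ε) = 0 := by
  refine P1 x fun s hx hs => ?_
  have h1 := hR s hs
  rw [Finset.inter_singleton_of_mem hx] at h1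
  exact R_single h x h1

lemma pair_case {k : Fin 6 → ℕ} {ε : Fin 6 → ℤ} (h : Sg ε) {t t' : Fin 6} (htt : t ≠ t')
    (hR : ∀ s : Finset (Fin 6), ∑ i ∈ s, V k ε i = 0 → R k ε (s ∩ {t, t'}) = 0)
    (hP : V k ε t + V k ε t' = 0 → (∀ i, V k ε i ≠ 0) →
      (∀ s : Finset (Fin 6), ∑ i ∈ s, V k ε i = 0 → (t ∈ s ↔ t' ∈ s)) → K (V k ε) = 0) :
    K (V k ε) = 0 := by
  have h1 : ∀ s : Finset (Fin 6), ∑ i ∈ s, V k ε i = 0 → t ∈ s → t' ∈ s := by
    intro s hs ht
    by_contra ht'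
    have h2 := hR s hs
    have h3 : s ∩ {t, t'} = {t} := by
      ext x
      simp only [Finset.mem_inter, Finset.mem_insert, Finset.mem_singleton]
      constructor
      · rintro ⟨hx, rfl | rfl⟩
        · rfl
        · exact absurd hx ht'
      · rintro rfl
        exact ⟨ht, Or.inl rfl⟩
    rw [h3] at h2
    exact R_single h t h2
  have h1' : ∀ s : Finset (Fin 6), ∑ i ∈ s, V k ε i = 0 → t' ∈ s → t ∈ s := by
    intro s hs ht'
    by_contra ht
    have h2 := hR s hs
    have h3 : s ∩ {t, t'} = {t'} := by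
      ext x
      simp only [Finset.mem_inter, Finset.mem_insert, Finset.mem_singleton]
      constructor
      · rintro ⟨hx, rfl | rfl⟩
        · exact absurd hx ht
        · rfl
      · rintro rfl
        exact ⟨ht', Or.inr rfl⟩
    rw [h3] at h2
    exact R_single h t' h2
  by_cases h0 : V k ε t + V k ε t' = 0
  · exact hP h0 (V_ne h) fun s hs => ⟨h1 s hs, h1' s hs⟩
  · refine P1 t fun s hx hs => h0 ?_
    refine R_pair h htt ?_
    have h2 := hR s hs
    have h3 : s ∩ {t, t'} = {t, t'} := by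
      rw [Finset.inter_eq_right]
      intro x hx'
      simp only [Finset.mem_insert, Finset.mem_singleton] at hx'
      rcases hx' with rfl | rfl
      · exact hx
      · exact h1 s hs hx
    rwa [h3] at h2

lemma triple_case {k : Fin 6 → ℕ} {ε : Fin 6 → ℤ} (h : Sg ε)
    (hB : ∀ s : Finset (Fin 6), ∑ i ∈ s, V k ε i = 0 → R k ε (s ∩ {0, 1, 2}) = 0)
    (hA : ∀ s : Finset (Fin 6), ∑ i ∈ s, V k ε i = 0 → R k ε (s ∩ {3, 4, 5}) = 0) :
    K (V k ε) = z (V k ε) Finset.univ - z (V k ε) {0, 1, 2} * z (V k ε) {3, 4, 5} := by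
  refine P3 ?_ ?_
  · intro s hc hs
    obtain ⟨x, hx⟩ := Finset.card_eq_one.1 hc
    have := hB s hs
    rw [hx] at this
    exact R_single h x this
  · intro s hc hs
    obtain ⟨x, hx⟩ := Finset.card_eq_one.1 hc
    have := hA s hs
    rw [hx] at this
    exact R_single h x this

lemma triple_formula {k : Fin 6 → ℕ} {ε : Fin 6 → ℤ} (h : Sg ε) (hk : Antitone k)
    (h1 : k 0 < k 2 + 136) (h2 : k 3 + 312 ≤ k 0) (h3 : 3000 < k 3) (h4 : k 3 < k 5 + 136) :
    K (V k ε) = z (V k ε) Finset.univ - z (V k ε) {0, 1, 2} * z (V k ε) {3, 4, 5} := by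
  have k01 : k 1 ≤ k 0 := hk (by decide)
  have k12 : k 2 ≤ k 1 := hk (by decide)
  have k23 : k 3 ≤ k 2 := hk (by decide)
  have k34 : k 4 ≤ k 3 := hk (by decide)
  have k45 : k 5 ≤ k 4 := hk (by decide)
  have hB : ∀ s : Finset (Fin 6), ∑ i ∈ s, V k ε i = 0 → R k ε (s ∩ {0, 1, 2}) = 0 := by
    intro s hs
    refine cut2 h ∅ {0, 1, 2} (by simp) (M := k 0) (G := 136) (R_le h hs) (by simp [R])
      ?_ ?_ (by omega)
    · intro i hi
      fin_cases i <;> simp at hi ⊢ <;> omega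
    · intro i hi hi'
      fin_cases i <;> simp at hi' ⊢ <;> omega
  refine triple_case h hB fun s hs => ?_
  refine cut2 h {0, 1, 2} {3, 4, 5} (by decide) (M := k 3) (G := 136) (R_le h hs) (hB s hs)
      ?_ ?_ (by omega)
  · intro i hi
    fin_cases i <;> simp at hi ⊢ <;> omega
  · intro i hi hi'
    fin_cases i <;> simp at hi hi' ⊢

lemma main_sorted {k : Fin 6 → ℕ} {ε : Fin 6 → ℤ} (h : Sg ε) (hk : Antitone k) :
    Bad k ∨ 0 ≤ K (V k ε) := by
  have k01 : k 1 ≤ k 0 := hk (by decide)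
  have k12 : k 2 ≤ k 1 := hk (by decide)
  have k23 : k 3 ≤ k 2 := hk (by decide)
  have k34 : k 4 ≤ k 3 := hk (by decide)
  have k45 : k 5 ≤ k 4 := hk (by decide)
  rcases Nat.lt_or_ge (k 0) (k 1 + 48) with a1 | a1
  swap
  · -- top cluster `{0}`
    right
    refine (notmem_of h (x := 0) fun s hs => ?_).ge
    refine cut2 h ∅ {0} (by simp) (M := k 0) (G := 4) (R_le h hs) (by simp [R])
      ?_ ?_ (by omega)
    · intro i hi
      fin_cases i <;> simp at hi ⊢
    · intro i hi hi'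
      fin_cases i <;> simp at hi' ⊢ <;> omega
  rcases Nat.lt_or_ge (k 0) (k 2 + 136) with a2 | a2
  swap
  · -- top cluster `{0,1}`
    right
    refine (pair_case h (t := 0) (t' := 1) (by decide) (fun s hs => ?_) P2_01).ge
    refine cut2 h ∅ {0, 1} (by simp) (M := k 0) (G := 48) (R_le h hs) (by simp [R])
      ?_ ?_ (by omega)
    · intro i hi
      fin_cases i <;> simp at hi ⊢ <;> omega
    · intro i hi hi'
      fin_cases i <;> simp at hi' ⊢ <;> omega
  rcases Nat.lt_or_ge (k 0) (k 3 + 312) with a3 | a3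
  swap
  · -- top cluster `{0,1,2}`
    rcases Nat.lt_or_ge 3000 (k 3) with b | b
    swap
    · left
      refine ⟨0, fun i => ?_⟩
      fin_cases i <;> simp <;> omega
    right
    have hB : ∀ s : Finset (Fin 6), ∑ i ∈ s, V k ε i = 0 → R k ε (s ∩ {0, 1, 2}) = 0 := by
      intro s hs
      refine cut2 h ∅ {0, 1, 2} (by simp) (M := k 0) (G := 136) (R_le h hs) (by simp [R])
        ?_ ?_ (by omega)
      · intro i hi
        fin_cases i <;> simp at hi ⊢ <;> omega
      · intro i hi hi'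
        fin_cases i <;> simp at hi' ⊢ <;> omega
    rcases Nat.lt_or_ge (k 3) (k 4 + 48) with c1 | c1
    swap
    · refine (notmem_of h (x := 3) fun s hs => ?_).ge
      refine cut2 h {0, 1, 2} {3} (by decide) (M := k 3) (G := 4) (R_le h hs) (hB s hs)
        ?_ ?_ (by omega)
      · intro i hi
        fin_cases i <;> simp at hi ⊢
      · intro i hi hi'
        fin_cases i <;> simp at hi hi' ⊢ <;> omega
    rcases Nat.lt_or_ge (k 3) (k 5 + 136) with c2 | c2
    swap
    · refine (pair_case h (t := 3) (t' := 4) (by decide) (fun s hs => ?_) P2_34).ge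
      refine cut2 h {0, 1, 2} {3, 4} (by decide) (M := k 3) (G := 48) (R_le h hs) (hB s hs)
        ?_ ?_ (by omega)
      · intro i hi
        fin_cases i <;> simp at hi ⊢ <;> omega
      · intro i hi hi'
        fin_cases i <;> simp at hi hi' ⊢ <;> omega
    rw [triple_formula h hk a2 a3 b c2]
    by_cases h1 : ∑ i ∈ ({0, 1, 2} : Finset (Fin 6)), V k ε i = 0
    · rw [z_union (s := {0, 1, 2}) (t := {3, 4, 5}) (by decide) (by decide) h1, z_one h1]
      simp
    · rw [z_zero h1, zero_mul, sub_zero]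
      exact z_nonneg _ _
  rcases Nat.lt_or_ge (k 0) (k 4 + 664) with a4 | a4
  swap
  · -- top cluster `{0,1,2,3}`
    rcases Nat.lt_or_ge 3000 (k 4) with b | b
    swap
    · left
      refine ⟨0, fun i => ?_⟩
      fin_cases i <;> simp <;> omega
    right
    have hB : ∀ s : Finset (Fin 6), ∑ i ∈ s, V k ε i = 0 → R k ε (s ∩ {0, 1, 2, 3}) = 0 := by
      intro s hs
      refine cut2 h ∅ {0, 1, 2, 3} (by simp) (M := k 0) (G := 312) (R_le h hs) (by simp [R])
        ?_ ?_ (by omega)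
      · intro i hi
        fin_cases i <;> simp at hi ⊢ <;> omega
      · intro i hi hi'
        fin_cases i <;> simp at hi' ⊢ <;> omega
    rcases Nat.lt_or_ge (k 4) (k 5 + 48) with c1 | c1
    swap
    · refine (notmem_of h (x := 4) fun s hs => ?_).ge
      refine cut2 h {0, 1, 2, 3} {4} (by decide) (M := k 4) (G := 4) (R_le h hs) (hB s hs)
        ?_ ?_ (by omega)
      · intro i hi
        fin_cases i <;> simp at hi ⊢
      · intro i hi hi'
        fin_cases i <;> simp at hi hi' ⊢ <;> omega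
    · refine (pair_case h (t := 4) (t' := 5) (by decide) (fun s hs => ?_) P2_45).ge
      refine cut2 h {0, 1, 2, 3} {4, 5} (by decide) (M := k 4) (G := 48) (R_le h hs) (hB s hs)
        ?_ ?_ (by omega)
      · intro i hi
        fin_cases i <;> simp at hi ⊢ <;> omega
      · intro i hi hi'
        fin_cases i <;> simp at hi hi' ⊢
  rcases Nat.lt_or_ge (k 0) (k 5 + 1368) with a5 | a5
  swap
  · -- top cluster `{0,1,2,3,4}`
    rcases Nat.lt_or_ge 3000 (k 5) with b | b
    swap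
    · left
      refine ⟨0, fun i => ?_⟩
      fin_cases i <;> simp <;> omega
    right
    have hB : ∀ s : Finset (Fin 6), ∑ i ∈ s, V k ε i = 0 →
        R k ε (s ∩ {0, 1, 2, 3, 4}) = 0 := by
      intro s hs
      refine cut2 h ∅ {0, 1, 2, 3, 4} (by simp) (M := k 0) (G := 664) (R_le h hs)
        (by simp [R]) ?_ ?_ (by omega)
      · intro i hi
        fin_cases i <;> simp at hi ⊢ <;> omega
      · intro i hi hi'
        fin_cases i <;> simp at hi' ⊢ <;> omega
    refine (notmem_of h (x := 5) fun s hs => ?_).ge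
    refine cut2 h {0, 1, 2, 3, 4} {5} (by decide) (M := k 5) (G := 4) (R_le h hs) (hB s hs)
      ?_ ?_ (by omega)
    · intro i hi
      fin_cases i <;> simp at hi ⊢
    · intro i hi hi'
      fin_cases i <;> simp at hi hi' ⊢
  · left
    refine ⟨0, fun i => ?_⟩
    fin_cases i <;> simp <;> omega

lemma main_gen {k : Fin 6 → ℕ} {ε : Fin 6 → ℤ} (h : Sg ε) : Bad k ∨ 0 ≤ K (V k ε) := by
  set f : Fin 6 → ℕᵒᵈ := fun i => OrderDual.toDual (k i) with hf
  set p := Tuple.sort f with hp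
  have hm : Monotone (f ∘ p) := Tuple.monotone_sort f
  have hk : Antitone (k ∘ p) := fun i j hij => hm hij
  have h' : Sg (ε ∘ p) := fun i => h (p i)
  have hV : V (k ∘ p) (ε ∘ p) = V k ε ∘ p := rfl
  rcases main_sorted h' hk with h1 | h1
  · left
    obtain ⟨j, hj⟩ := h1
    refine ⟨p j, fun i => ?_⟩
    have := hj (p.symm i)
    simpa using this
  · right
    rw [hV, K_perm] at h1
    exact h1

end Pool.Agent.E4803a
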